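import Mathlib

/-!
# Removing negative frequencies by unitary rotations

Laurent polynomials are finitely supported functions `ℤ →₀ ℂ`.  Starting from the vector
`(s, …, s, G)` with `L` copies of the constant `s`, the negative frequencies `-m K, -m (K-1), …` of
`G` are removed one after the other by constant unitary rotations twisted by a monomial.
-/

namespace Pool.Agent.W767.HL

noncomputable section

open Finset

/-- The value at `z` of the Laurent polynomial with coefficients `f`. -/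
def ev (f : ℤ →₀ ℂ) (z : ℂ) : ℂ := Finsupp.linearCombination ℂ (fun n : ℤ => z ^ n) f

/-- Multiplication of a Laurent polynomial by `z ^ m`. -/
def sh (m : ℤ) (f : ℤ →₀ ℂ) : ℤ →₀ ℂ := Finsupp.mapDomain (Equiv.addRight m) f

lemma ev_eq_sum (f : ℤ →₀ ℂ) (z : ℂ) : ev f z = f.sum fun n c => c * z ^ n := by
  simp [ev, Finsupp.linearCombination_apply]

lemma ev_add (f g : ℤ →₀ ℂ) (z : ℂ) : ev (f + g) z = ev f z + ev g z := by
  simp [ev]

lemma ev_sub (f g : ℤ →₀ ℂ) (z : ℂ) : ev (f - g) z = ev f z - ev g z := by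
  simp [ev]

lemma ev_smul (c : ℂ) (f : ℤ →₀ ℂ) (z : ℂ) : ev (c • f) z = c * ev f z := by
  simp [ev]

lemma ev_single (n : ℤ) (c z : ℂ) : ev (Finsupp.single n c) z = c * z ^ n := by
  simp [ev]

lemma sh_apply (m n : ℤ) (f : ℤ →₀ ℂ) : sh m f n = f (n - m) := by
  unfold sh
  rw [Finsupp.mapDomain_equiv_apply]
  simp [sub_eq_add_neg]

lemma ev_sh (m : ℤ) (f : ℤ →₀ ℂ) {z : ℂ} (hz : z ≠ 0) : ev (sh m f) z = z ^ m * ev f z := by
  unfold ev sh
  rw [Finsupp.linearCombination_mapDomain, Finsupp.linearCombination_apply,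
    Finsupp.linearCombination_apply, Finsupp.sum, Finsupp.sum, Finset.mul_sum]
  refine Finset.sum_congr rfl fun n _ => ?_
  simp only [Function.comp_apply, Equiv.coe_addRight, smul_eq_mul]
  rw [zpow_add₀ hz]
  ring

/-- The two dimensional rotation identity. -/
lemma rot_norm (f e κ ω : ℂ) (hω : ‖ω‖ = 1) :
    ‖f - κ * (ω⁻¹ * e)‖ ^ 2 + ‖e + (starRingEnd ℂ) κ * (ω * f)‖ ^ 2
      = (1 + ‖κ‖ ^ 2) * (‖f‖ ^ 2 + ‖e‖ ^ 2) := by
  have hinv : ω⁻¹ = (starRingEnd ℂ) ω := Complex.inv_eq_conj hω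
  rw [hinv]
  have hω2 : ω.re ^ 2 + ω.im ^ 2 = 1 := by
    have := Complex.sq_norm ω
    rw [hω, Complex.normSq_apply] at this
    nlinarith
  simp only [Complex.sq_norm, Complex.normSq_apply, Complex.sub_re, Complex.sub_im, Complex.add_re,
    Complex.add_im, Complex.mul_re, Complex.mul_im, Complex.conj_re, Complex.conj_im]
  obtain ⟨a, b⟩ := f
  obtain ⟨c, d⟩ := e
  obtain ⟨x, y⟩ := κ
  obtain ⟨u, v⟩ := ω
  simp only at *
  have h1 : v ^ 2 = 1 - u ^ 2 := by linarith
  ring_nf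
  have h3 : v ^ 3 = v * (1 - u ^ 2) := by rw [← h1]; ring
  simp only [h1]
  ring

/-- The invariant of the reduction. -/
structure Inv (L : ℕ) (m : ℕ → ℕ) (G : ℤ →₀ ℂ) (s : ℝ) (M : ℕ) (j : ℕ)
    (eF : ℤ →₀ ℂ) (e : ℕ → (ℤ →₀ ℂ)) (t : ℕ → ℝ) (C : ℝ) : Prop where
  t_ge : ∀ i < L, s ≤ t i
  C_pos : 0 < C
  C_eq : C * ∏ i ∈ range L, t i = s ^ L
  eF_low : ∀ n : ℤ, n < -(m j : ℤ) → eF n = 0
  eF_eq : ∀ n : ℤ, -(m j : ℤ) ≤ n → n < 0 → eF n = C * G n
  e_neg : ∀ i < L, ∀ n : ℤ, n < 0 → e i n = 0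
  e_zero : ∀ i < L, e i 0 = t i
  e_gap : ∀ k ≤ j, ∀ n : ℤ, 0 < n → n < m k → e (k % L) n = 0
  e_M : ∀ i < L, ∀ n : ℤ, 0 < n → n < M → e i n = 0
  norm_eq : ∀ z : ℂ, ‖z‖ = 1 →
    ∑ i ∈ range L, ‖ev (e i) z‖ ^ 2 + ‖ev eF z‖ ^ 2 = L * s ^ 2 + ‖ev G z‖ ^ 2

lemma inv_start {L : ℕ} {m : ℕ → ℕ} {G : ℤ →₀ ℂ} {s : ℝ} {M K : ℕ} (hs : 0 < s)
    (hG : ∀ n : ℤ, n < -(m K : ℤ) → G n = 0) :
    Inv L m G s M K G (fun _ => Finsupp.single 0 (s : ℂ)) (fun _ => s) 1 where
  t_ge := fun i _ => le_rfl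
  C_pos := one_pos
  C_eq := by simp
  eF_low := hG
  eF_eq := fun n _ _ => by simp
  e_neg := fun i _ n hn => by rw [Finsupp.single_apply, if_neg (by omega)]
  e_zero := fun i _ => by simp
  e_gap := fun k _ n hn _ => by rw [Finsupp.single_apply, if_neg (by omega)]
  e_M := fun i _ n hn _ => by rw [Finsupp.single_apply, if_neg (by omega)]
  norm_eq := fun z hz => by
    simp [ev_single, abs_of_pos hs]

lemma inv_step {L : ℕ} {m : ℕ → ℕ} {G : ℤ →₀ ℂ} {s : ℝ} {M j : ℕ} (hL : 0 < L) (hs : 0 < s)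
    (hm : StrictMono m) (hgap : L ≤ j → m (j - L) + m (j - 1) ≤ m j)
    (hM : M + m (j - 1) ≤ m j) (hj : 1 ≤ j)
    (hG2 : ∀ n : ℤ, -(m j : ℤ) < n → n < -(m (j - 1) : ℤ) → G n = 0)
    {eF : ℤ →₀ ℂ} {e : ℕ → (ℤ →₀ ℂ)} {t : ℕ → ℝ} {C : ℝ} (h : Inv L m G s M j eF e t C) :
    ∃ (eF' : ℤ →₀ ℂ) (e' : ℕ → (ℤ →₀ ℂ)) (t' : ℕ → ℝ) (C' : ℝ),
      Inv L m G s M (j - 1) eF' e' t' C' ∧ (∀ i < L, i ≠ j % L → t' i = t i) ∧
      t' (j % L) ^ 2 = t (j % L) ^ 2 + C ^ 2 * ‖G (-(m j : ℤ))‖ ^ 2 := by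
  set i := j % L with hi
  have hiL : i < L := Nat.mod_lt _ hL
  have hti : 0 < t i := hs.trans_le (h.t_ge i hiL)
  have htic : (t i : ℂ) ≠ 0 := by exact_mod_cast hti.ne'
  set a := G (-(m j : ℤ)) with ha
  set κ : ℂ := C * a / t i with hκ
  have hκn : ‖κ‖ = C * ‖a‖ / t i := by
    rw [hκ, norm_div, norm_mul, Complex.norm_real, Complex.norm_real, Real.norm_of_nonneg h.C_pos.le,
      Real.norm_of_nonneg hti.le]
  set w : ℝ := Real.sqrt (1 + ‖κ‖ ^ 2) with hw
  have hw2 : w ^ 2 = 1 + ‖κ‖ ^ 2 := Real.sq_sqrt (by positivity)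
  have hw0 : 0 < w := Real.sqrt_pos.mpr (by positivity)
  have hw1 : 1 ≤ w := by
    rw [hw, Real.one_le_sqrt]
    nlinarith [sq_nonneg ‖κ‖]
  set f' : ℤ →₀ ℂ := ((w⁻¹ : ℝ) : ℂ) • (eF - κ • sh (-(m j : ℤ)) (e i)) with hf'
  set g' : ℤ →₀ ℂ := ((w⁻¹ : ℝ) : ℂ) • (e i + (starRingEnd ℂ) κ • sh (m j : ℤ) eF) with hg'
  have hmm : m (j - 1) < m j := hm (by omega)
  have hf'app : ∀ n : ℤ, f' n = ((w⁻¹ : ℝ) : ℂ) * (eF n - κ * e i (n + m j)) := by
    intro n
    simp only [hf', Finsupp.smul_apply, Finsupp.sub_apply, smul_eq_mul, sh_apply, sub_neg_eq_add]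
  have hg'app : ∀ n : ℤ, g' n
      = ((w⁻¹ : ℝ) : ℂ) * (e i n + (starRingEnd ℂ) κ * eF (n - m j)) := by
    intro n
    simp only [hg', Finsupp.smul_apply, Finsupp.add_apply, smul_eq_mul, sh_apply]
  have hlowF : ∀ n : ℤ, -(m j : ℤ) < n → n < -(m (j - 1) : ℤ) → eF n = 0 := by
    intro n h1 h2
    rw [h.eF_eq n h1.le (by omega), hG2 n h1 h2, mul_zero]
  have hnegF : eF (-(m j : ℤ)) = C * a := h.eF_eq _ le_rfl (by omega)
  refine ⟨f', Function.update e i g', Function.update t i (t i * w), w⁻¹ * C, ?_, ?_, ?_⟩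
  · constructor
    · intro k hk
      by_cases hki : k = i
      · subst hki
        rw [Function.update_self]
        nlinarith [h.t_ge i hiL]
      · rw [Function.update_of_ne hki]
        exact h.t_ge k hk
    · have := h.C_pos
      positivity
    · rw [Finset.prod_update_of_mem (Finset.mem_range.mpr hiL), ← h.C_eq,
        ← Finset.mul_prod_erase (range L) t (Finset.mem_range.mpr hiL),
        Finset.sdiff_singleton_eq_erase]
      field_simp
    · intro n hn
      rw [hf'app]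
      rcases lt_trichotomy n (-(m j : ℤ)) with h1 | h1 | h1
      · rw [h.eF_low n h1, h.e_neg i hiL _ (by omega)]
        simp
      · rw [h1, hnegF, neg_add_cancel, h.e_zero i hiL, hκ]
        field_simp
        simp
      · rw [hlowF n h1 hn, h.e_gap j le_rfl (n + m j) (by omega) (by omega)]
        simp
    · intro n h1 h2
      rw [hf'app, h.eF_eq n (by omega) h2, h.e_gap j le_rfl (n + m j) (by omega) (by omega)]
      push_cast
      ring
    · intro k hk n hn
      by_cases hki : k = i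
      · subst hki
        rw [Function.update_self, hg'app, h.e_neg i hiL n hn, h.eF_low _ (by omega)]
        simp
      · rw [Function.update_of_ne hki]
        exact h.e_neg k hk n hn
    · intro k hk
      by_cases hki : k = i
      · subst hki
        rw [Function.update_self, Function.update_self, hg'app, zero_sub, hnegF, h.e_zero i hiL]
        have h3 : (starRingEnd ℂ) κ * (C * a) = ((t i * ‖κ‖ ^ 2 : ℝ) : ℂ) := by
          have h4 : (C : ℂ) * a = κ * t i := by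
            rw [hκ]
            field_simp
          rw [h4, ← mul_assoc, mul_comm ((starRingEnd ℂ) κ) κ, Complex.mul_conj,
            Complex.normSq_eq_norm_sq]
          push_cast
          ring
        rw [h3]
        have h5 : w⁻¹ * (t i + t i * ‖κ‖ ^ 2) = t i * w := by
          have : t i + t i * ‖κ‖ ^ 2 = t i * w ^ 2 := by rw [hw2]; ring
          rw [this]
          field_simp
        rw [← h5]
        push_cast
        ring
      · rw [Function.update_of_ne hki, Function.update_of_ne hki]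
        exact h.e_zero k hk
    · intro k hk n h1 h2
      by_cases hki : k % L = i
      · rw [hki, Function.update_self, hg'app]
        have hkj : k < j := by omega
        have hLj : k + L ≤ j := by
          have h6 : L ∣ j - k := (Nat.modEq_iff_dvd' hkj.le).mp (hki.trans hi)
          have h7 := Nat.le_of_dvd (by omega) h6
          omega
        have h8 : m k ≤ m (j - L) := hm.monotone (by omega)
        have h9 := hgap (by omega)
        have h10 : e i n = 0 := by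
          have := h.e_gap k (by omega) n h1 h2
          rwa [hki] at this
        rw [h10, hlowF (n - m j) (by omega) (by omega)]
        simp
      · rw [Function.update_of_ne hki]
        exact h.e_gap k (by omega) n h1 h2
    · intro k hk n h1 h2
      by_cases hki : k = i
      · subst hki
        rw [Function.update_self, hg'app, h.e_M i hiL n h1 h2,
          hlowF (n - m j) (by omega) (by omega)]
        simp
      · rw [Function.update_of_ne hki]
        exact h.e_M k hk n h1 h2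
    · intro z hz
      have hz0 : z ≠ 0 := by
        intro h0
        rw [h0, norm_zero] at hz
        exact zero_ne_one hz
      rw [← h.norm_eq z hz, ← Finset.add_sum_erase (range L) _ (Finset.mem_range.mpr hiL),
        ← Finset.add_sum_erase (range L) (fun k => ‖ev (e k) z‖ ^ 2) (Finset.mem_range.mpr hiL)]
      have h11 : ∑ x ∈ (range L).erase i, ‖ev (Function.update e i g' x) z‖ ^ 2
          = ∑ x ∈ (range L).erase i, ‖ev (e x) z‖ ^ 2 := by
        refine Finset.sum_congr rfl fun x hx => ?_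
        rw [Function.update_of_ne (Finset.ne_of_mem_erase hx)]
      rw [h11, Function.update_self]
      have h12 := rot_norm (ev eF z) (ev (e i) z) κ (z ^ (m j : ℤ)) (by simp [hz])
      have h13 : ‖ev g' z‖ ^ 2 + ‖ev f' z‖ ^ 2 = ‖ev (e i) z‖ ^ 2 + ‖ev eF z‖ ^ 2 := by
        have e1 : ev f' z = ((w⁻¹ : ℝ) : ℂ)
            * (ev eF z - κ * ((z ^ (m j : ℤ))⁻¹ * ev (e i) z)) := by
          rw [hf', ev_smul, ev_sub, ev_smul, ev_sh _ _ hz0, zpow_neg]
        have e2 : ev g' z = ((w⁻¹ : ℝ) : ℂ)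
            * (ev (e i) z + (starRingEnd ℂ) κ * (z ^ (m j : ℤ) * ev eF z)) := by
          rw [hg', ev_smul, ev_add, ev_smul, ev_sh _ _ hz0]
        rw [e1, e2, norm_mul, norm_mul, Complex.norm_real, Real.norm_of_nonneg (by positivity),
          mul_pow, mul_pow, ← mul_add, add_comm (‖ev (e i) z + _‖ ^ 2), h12, ← hw2]
        field_simp
        ring
      linarith
  · intro k _ hki
    rw [Function.update_of_ne hki]
  · rw [Function.update_self, mul_pow, hw2, hκn]
    field_simp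

lemma inv_iter {L : ℕ} {m : ℕ → ℕ} {G : ℤ →₀ ℂ} {s : ℝ} {M K j0 : ℕ} (hL : 0 < L) (hs : 0 < s)
    (hm : StrictMono m) (hgap : ∀ j, L ≤ j → m (j - L) + m (j - 1) ≤ m j)
    (hM : ∀ j, j0 < j → M + m (j - 1) ≤ m j)
    (hG : ∀ n : ℤ, n < -(m K : ℤ) → G n = 0)
    (hG2 : ∀ j, 1 ≤ j → ∀ n : ℤ, -(m j : ℤ) < n → n < -(m (j - 1) : ℤ) → G n = 0) :
    ∀ d : ℕ, j0 + d ≤ K → ∃ (eF : ℤ →₀ ℂ) (e : ℕ → (ℤ →₀ ℂ)) (t : ℕ → ℝ) (C : ℝ),
      Inv L m G s M (K - d) eF e t C := by
  intro d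
  induction d with
  | zero => exact fun _ => ⟨_, _, _, _, inv_start hs hG⟩
  | succ d ih =>
      intro hd
      obtain ⟨eF, e, t, C, h⟩ := ih (by omega)
      obtain ⟨eF', e', t', C', h', -⟩ := inv_step hL hs hm (hgap _) (hM _ (by omega)) (by omega)
        (hG2 _ (by omega)) h
      exact ⟨eF', e', t', C', h'⟩

/-- The outcome of the reduction: a polynomial `f` (no negative frequencies) dominated by
`L s ^ 2 + |G| ^ 2` on the circle, with no frequencies in `(0, M)` and with a large constant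
term. -/
theorem alg {L : ℕ} {m : ℕ → ℕ} {G : ℤ →₀ ℂ} {s : ℝ} {M K j0 : ℕ} (hL : 0 < L) (hs : 0 < s)
    (hm : StrictMono m) (hgap : ∀ j, L ≤ j → m (j - L) + m (j - 1) ≤ m j) (hK : j0 < K)
    (hM : ∀ j, j0 < j → M + m (j - 1) ≤ m j)
    (hG : ∀ n : ℤ, n < -(m K : ℤ) → G n = 0)
    (hG2 : ∀ j, 1 ≤ j → ∀ n : ℤ, -(m j : ℤ) < n → n < -(m (j - 1) : ℤ) → G n = 0) :
    ∃ (f : ℤ →₀ ℂ) (t : ℝ), s ≤ t ∧ (∀ n : ℤ, n < 0 → f n = 0) ∧ f 0 = t ∧
      (∀ n : ℤ, 0 < n → n < M → f n = 0) ∧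
      (∀ z : ℂ, ‖z‖ = 1 → ‖ev f z‖ ^ 2 ≤ L * s ^ 2 + ‖ev G z‖ ^ 2) ∧
      s ^ L * ‖G (-(m (j0 + 1) : ℤ))‖ ≤ t ^ (L + 1) := by
  obtain ⟨eF, e, t, C, h⟩ := inv_iter (M := M) (K := K) (j0 := j0) hL hs hm hgap hM hG hG2
    (K - (j0 + 1)) (by omega)
  have hKj : K - (K - (j0 + 1)) = j0 + 1 := by omega
  rw [hKj] at h
  obtain ⟨eF', e', t', C', h', hne, hi⟩ := inv_step hL hs hm (hgap _) (hM _ (by omega)) (by omega)
    (hG2 _ (by omega)) h
  set i := (j0 + 1) % L with hidef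
  have hiL : i < L := Nat.mod_lt _ hL
  obtain ⟨k, hkL, hkmax⟩ := Finset.exists_max_image (range L) t' ⟨i, Finset.mem_range.mpr hiL⟩
  have hkL' : k < L := Finset.mem_range.mp hkL
  have htk : s ≤ t' k := h'.t_ge k hkL'
  have htk0 : 0 < t' k := hs.trans_le htk
  refine ⟨e' k, t' k, htk, h'.e_neg k hkL', h'.e_zero k hkL', h'.e_M k hkL', ?_, ?_⟩
  · intro z hz
    have h1 := h'.norm_eq z hz
    have h2 := Finset.single_le_sum (f := fun i => ‖ev (e' i) z‖ ^ 2)
      (fun i _ => sq_nonneg _) hkL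
    have h3 := sq_nonneg ‖ev eF' z‖
    linarith
  · set a := ‖G (-(m (j0 + 1) : ℤ))‖ with ha
    have ha0 : 0 ≤ a := norm_nonneg _
    have hti : 0 < t i := hs.trans_le (h.t_ge i hiL)
    set Q := ∏ x ∈ (range L).erase i, t x with hQ
    have hQ0 : 0 < Q := Finset.prod_pos fun x hx =>
      hs.trans_le (h.t_ge x (Finset.mem_range.mp (Finset.mem_of_mem_erase hx)))
    have hCQ : C * (t i * Q) = s ^ L := by
      rw [hQ, Finset.mul_prod_erase (range L) t (Finset.mem_range.mpr hiL), h.C_eq]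
    have hQle : Q ≤ t' k ^ (L - 1) := by
      have hcard : ((range L).erase i).card = L - 1 := by
        rw [Finset.card_erase_of_mem (Finset.mem_range.mpr hiL), Finset.card_range]
      rw [hQ, ← hcard, ← Finset.prod_const]
      refine Finset.prod_le_prod (fun x hx => ?_) fun x hx => ?_
      · exact (hs.trans_le (h.t_ge x (Finset.mem_range.mp (Finset.mem_of_mem_erase hx)))).le
      · have hxL := Finset.mem_of_mem_erase hx
        rw [← hne x (Finset.mem_range.mp hxL) (Finset.ne_of_mem_erase hx)]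
        exact hkmax x hxL
    have hC : C = s ^ L / (t i * Q) := by
      field_simp
      linarith
    have hi2 : t i * (C * a) ≤ t' i ^ 2 := by
      rw [hi]
      nlinarith [sq_nonneg (t i - C * a), mul_nonneg h.C_pos.le ha0, hti]
    have hi3 : s ^ L * a ≤ t' i ^ 2 * Q := by
      calc s ^ L * a = t i * (C * a) * Q := by rw [← hCQ]; ring
        _ ≤ t' i ^ 2 * Q := mul_le_mul_of_nonneg_right hi2 hQ0.le
    have hti' : 0 ≤ t' i := (hs.trans_le (h'.t_ge i hiL)).le
    calc s ^ L * a ≤ t' i ^ 2 * Q := hi3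
      _ ≤ t' k ^ 2 * t' k ^ (L - 1) := by
          refine mul_le_mul (pow_le_pow_left₀ hti' (hkmax i (Finset.mem_range.mpr hiL)) 2) hQle
            hQ0.le (by positivity)
      _ = t' k ^ (L + 1) := by
          rw [← pow_add]
          congr 1
          omega

end

end Pool.Agent.W767.HL
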