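import Pool.Agent.W767.HL.Step1

/-!
# Exponential decay of the negative coefficients
-/

namespace Pool.Agent.W767.HL

noncomputable section

open MeasureTheory AddCircle Complex Set Filter Topology

lemma ev_tr_integrable (c : ℤ → ℂ) (a b : ℤ) : Integrable (fun θ => ev (tr c a b) (ze θ)) mu :=
  integrable_of_cont (continuous_ev_ze _)

/-- The passage to the limit in the main inequality. -/
lemma lim_ineq {L : ℕ} (hL : 0 < L) {m : ℕ → ℕ} (hm : StrictMono m)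
    (hgap : ∀ j, L ≤ j → m (j - L) + m (j - 1) ≤ m j) {M j0 : ℕ}
    (hM : ∀ j, j0 < j → M + m (j - 1) ≤ m j) {g : Lp ℂ 2 mu}
    (hG2 : ∀ j, 1 ≤ j → ∀ n : ℤ, -(m j : ℤ) < n → n < -(m (j - 1) : ℤ) → fourierCoeff g n = 0)
    {w : ℂ} (hw : ‖w‖ < 1) (hw0 : w ≠ 0) {B : ℝ}
    (hB : ∀ N : ℕ, ∫ θ, P w θ * ‖ev (tr (fourierCoeff g) (-(N : ℤ)) N) (ze θ)‖ ∂mu ≤ B)
    (hB0 : ∀ N : ℕ, ∫ θ, P 0 θ * ‖ev (tr (fourierCoeff g) (-(N : ℤ)) N) (ze θ)‖ ∂mu ≤ B)
    {s : ℝ} (hs : 0 < s) (hs1 : s ≤ 1) (hsM : ‖w‖ ^ M * (2 * (L + B)) ≤ s / 2)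
    (ha : 0 < ‖fourierCoeff g (-(m (j0 + 1) : ℤ))‖) :
    2 * ((L * Real.log s + Real.log ‖fourierCoeff g (-(m (j0 + 1) : ℤ))‖) / (L + 1) - Real.log 2)
      ≤ La w (L * s ^ 2) g := by
  have hgi : Integrable (g : Ci → ℂ) mu := (Lp.memLp g).integrable (by norm_num)
  have hLs : (0 : ℝ) < L * s ^ 2 := by
    have : (0 : ℝ) < L := by exact_mod_cast hL
    positivity
  have h1 : Tendsto (fun K => La w (L * s ^ 2)
      (fun θ => ev (tr (fourierCoeff g) (-(m K : ℤ)) (m K)) (ze θ))) atTop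
      (𝓝 (La w (L * s ^ 2) g)) :=
    (La_tendsto hw hLs hgi (fun N => ev_tr_integrable _ _ _) (trunc_tendsto g)).comp
      hm.tendsto_atTop
  refine ge_of_tendsto h1 ?_
  filter_upwards [eventually_gt_atTop (j0 + 1)] with K hK
  have hmK : m (j0 + 1) < m K := hm hK
  have h2 : tr (fourierCoeff g) (-(m K : ℤ)) (m K) (-(m (j0 + 1) : ℤ))
      = fourierCoeff g (-(m (j0 + 1) : ℤ)) := by
    rw [tr_apply, if_pos]
    constructor <;> omega
  have h3 := trunc_ineq (G := tr (fourierCoeff g) (-(m K : ℤ)) (m K)) hL hm hgap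
    (show j0 < K by omega) hM (fun n hn => by
      rw [tr_apply, if_neg]
      omega) (fun j hj n hn1 hn2 => by
      rw [tr_apply]
      split_ifs
      · exact hG2 j hj n hn1 hn2
      · rfl) hw hw0 (hB (m K)) (hB0 (m K)) hs hs1 hsM (by rw [h2]; exact ha)
  rw [h2] at h3
  exact h3

/-- Exponential decay of the coefficients in the gap sequence. -/
theorem decay_gap {L : ℕ} (hL : 0 < L) {m : ℕ → ℕ} (hm : StrictMono m)
    (hgap : ∀ j, L ≤ j → m (j - L) + m (j - 1) ≤ m j) {η : ℝ} (hη : 0 < η)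
    (hM : ∀ j, 1 ≤ j → η * m j + m (j - 1) ≤ m j) (g : Lp ℂ 2 mu)
    (hG2 : ∀ j, 1 ≤ j → ∀ n : ℤ, -(m j : ℤ) < n → n < -(m (j - 1) : ℤ) → fourierCoeff g n = 0)
    {E : Set Ci} (hE : MeasurableSet E) (hpos : 0 < mu.real E) (hgE : ∀ θ ∈ E, g θ = 0) :
    ∃ C ρ : ℝ, 0 < C ∧ 0 < ρ ∧ ρ < 1 ∧ ∃ J : ℕ, ∀ j, J ≤ j →
      ‖fourierCoeff g (-(m j : ℤ))‖ ≤ C * ρ ^ m j := by
  have hL1 : (1 : ℝ) ≤ L := by exact_mod_cast hL
  obtain ⟨w, -, hw, hw0, hδ⟩ := exists_point hE hpos (δ := 1 / (2 * (L + 1))) (by positivity)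
    (r₀ := 0) zero_lt_one
  have hwn : 0 < ‖w‖ := norm_pos_iff.mpr hw0
  have hgi : Integrable (g : Ci → ℂ) mu := (Lp.memLp g).integrable (by norm_num)
  obtain ⟨B1, hB1⟩ := Pint_tendsto hw hgi (fun N => ev_tr_integrable _ _ _) (trunc_tendsto g)
  obtain ⟨B2, hB2⟩ := Pint_tendsto (w := 0) (by simp) hgi (fun N => ev_tr_integrable _ _ _)
    (trunc_tendsto g)
  set B := max B1 B2 with hBdef
  have hBn : 0 ≤ B := by
    refine le_trans ?_ ((hB1 0).trans (le_max_left _ _))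
    exact integral_nonneg fun θ => mul_nonneg (P_pos hw θ).le (norm_nonneg _)
  set D := 2 * ∫ θ, P w θ * ‖g θ‖ ∂mu with hD
  set q := Real.exp (η * Real.log ‖w‖ / 2) with hq
  have hlw : Real.log ‖w‖ < 0 := Real.log_neg hwn hw
  set C1 := (L + 1) * (Real.log 2 + D / 2) + (L + 1 / 2) / 2 * Real.log L with hC1
  set C2 := C1 + Real.log (4 * (L + B)) / 2 - Real.log ‖w‖ / 2 with hC2
  -- eventually the parameter is small
  have hmt : Tendsto (fun j => ⌊η * m j⌋₊) atTop atTop := by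
    refine tendsto_nat_floor_atTop.comp (Tendsto.const_mul_atTop hη ?_)
    exact tendsto_natCast_atTop_atTop.comp hm.tendsto_atTop
  have hsm : ∀ᶠ j in atTop, 4 * (L + B) * ‖w‖ ^ ⌊η * m j⌋₊ ≤ 1 / L := by
    have h1 : Tendsto (fun j => 4 * (L + B) * ‖w‖ ^ ⌊η * m j⌋₊) atTop (𝓝 (4 * (L + B) * 0)) :=
      ((tendsto_pow_atTop_nhds_zero_of_lt_one hwn.le hw).comp hmt).const_mul _
    rw [mul_zero] at h1
    exact h1.eventually_le_const (by positivity)
  obtain ⟨J, hJ⟩ := eventually_atTop.mp hsm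
  refine ⟨Real.exp C2, q, Real.exp_pos _, Real.exp_pos _, ?_, J + 1, fun j hj => ?_⟩
  · rw [hq, Real.exp_lt_one_iff]
    nlinarith
  obtain ⟨j0, rfl⟩ : ∃ j0, j = j0 + 1 := ⟨j - 1, by omega⟩
  set a := ‖fourierCoeff g (-(m (j0 + 1) : ℤ))‖ with ha
  have haa : 0 ≤ a := norm_nonneg _
  rcases haa.eq_or_lt with ha0 | ha0
  · rw [← ha0]
    positivity
  set M := ⌊η * m (j0 + 1)⌋₊ with hMdef
  set s := 4 * (L + B) * ‖w‖ ^ M with hs
  have hspos : 0 < s := by positivity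
  have hsL : s ≤ 1 / L := hJ _ (by omega)
  have hLs : L * s ≤ 1 := by
    rw [le_div_iff₀ (by positivity)] at hsL
    linarith
  have hs1 : s ≤ 1 := by nlinarith
  have hMle : (M : ℝ) ≤ η * m (j0 + 1) := Nat.floor_le (by positivity)
  have hMge : η * m (j0 + 1) < M + 1 := Nat.lt_floor_add_one _
  have hM' : ∀ j, j0 < j → M + m (j - 1) ≤ m j := by
    intro j hj
    have h1 := hM j (by omega)
    have h2 : (m (j0 + 1) : ℝ) ≤ m j := by exact_mod_cast hm.monotone (show j0 + 1 ≤ j by omega)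
    have h3 : (M : ℝ) + m (j - 1) ≤ m j := by
      have := mul_le_mul_of_nonneg_left h2 hη.le
      linarith
    exact_mod_cast h3
  have key := lim_ineq hL hm hgap hM' hG2 hw hw0 (B := B)
    (fun N => (hB1 N).trans (le_max_left _ _)) (fun N => (hB2 N).trans (le_max_right _ _))
    hspos hs1 (by rw [hs]; exact le_of_eq (by ring)) ha0
  have hLs2 : (0 : ℝ) < L * s ^ 2 := by positivity
  have hLs3 : (L : ℝ) * s ^ 2 ≤ 1 := by
    calc (L : ℝ) * s ^ 2 = (L * s) * s := by ring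
      _ ≤ 1 * 1 := mul_le_mul hLs hs1 hspos.le zero_le_one
      _ = 1 := one_mul 1
  have key2 := La_le hw hLs2 hLs3 hgi hE (σ := 0) (fun θ hθ => by rw [hgE θ hθ, norm_zero])
  rw [zero_pow two_ne_zero, add_zero, ← hD] at key2
  have hPE : 1 - 1 / (2 * ((L : ℝ) + 1)) ≤ ∫ θ in E, P w θ ∂mu := by
    have := integral_add_compl hE (integrable_of_cont (continuous_P hw))
    rw [integral_P hw] at this
    linarith
  have hlog : Real.log (L * s ^ 2) ≤ 0 := Real.log_nonpos hLs2.le hLs3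
  have key3 : (∫ θ in E, P w θ ∂mu) * Real.log (L * s ^ 2)
      ≤ (1 - 1 / (2 * ((L : ℝ) + 1))) * Real.log (L * s ^ 2) :=
    mul_le_mul_of_nonpos_right hPE hlog
  have hlog2 : Real.log (L * s ^ 2) = Real.log L + 2 * Real.log s := by
    rw [Real.log_mul (by positivity) (by positivity), Real.log_pow]
    push_cast
    ring
  have hlogs : Real.log s = Real.log (4 * (L + B)) + M * Real.log ‖w‖ := by
    rw [hs, Real.log_mul (by positivity) (by positivity), Real.log_pow]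
  rw [← ha] at key
  have key4 : 2 * ((L * Real.log s + Real.log a) / (L + 1) - Real.log 2)
      ≤ (1 - 1 / (2 * ((L : ℝ) + 1))) * (Real.log L + 2 * Real.log s) + D := by
    rw [← hlog2]
    linarith
  have key5 : Real.log a ≤ C1 + Real.log s / 2 := by
    have h1 : (L * Real.log s + Real.log a) / (L + 1)
      ≤ (1 - 1 / (2 * ((L : ℝ) + 1))) * (Real.log L + 2 * Real.log s) / 2 + D / 2 + Real.log 2 := by
      linarith
    rw [div_le_iff₀ (by positivity)] at h1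
    have h2 : ((1 - 1 / (2 * ((L : ℝ) + 1))) * (Real.log L + 2 * Real.log s) / 2 + D / 2
        + Real.log 2) * (L + 1) = C1 + (L + 1 / 2) * Real.log s := by
      rw [hC1]
      field_simp
      ring
    rw [h2] at h1
    linarith
  have key6 : Real.log a ≤ C2 + m (j0 + 1) * (η * Real.log ‖w‖ / 2) := by
    rw [hlogs] at key5
    have h1 : (M : ℝ) * Real.log ‖w‖ ≤ (η * m (j0 + 1) - 1) * Real.log ‖w‖ :=
      mul_le_mul_of_nonpos_right (by linarith) hlw.le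
    rw [hC2]
    linarith
  have h7 : a ≤ Real.exp (C2 + m (j0 + 1) * (η * Real.log ‖w‖ / 2)) := by
    rw [← Real.exp_log ha0]
    exact Real.exp_le_exp.mpr key6
  rw [Real.exp_add, Real.exp_nat_mul] at h7
  exact h7

/-- Exponential decay of all negative coefficients. -/
theorem decay {L : ℕ} (hL : 0 < L) {m : ℕ → ℕ} (hm : StrictMono m)
    (hgap : ∀ j, L ≤ j → m (j - L) + m (j - 1) ≤ m j) {η : ℝ} (hη : 0 < η)
    (hM : ∀ j, 1 ≤ j → η * m j + m (j - 1) ≤ m j) (g : Lp ℂ 2 mu)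
    (hG2 : ∀ j, 1 ≤ j → ∀ n : ℤ, -(m j : ℤ) < n → n < -(m (j - 1) : ℤ) → fourierCoeff g n = 0)
    {E : Set Ci} (hE : MeasurableSet E) (hpos : 0 < mu.real E) (hgE : ∀ θ ∈ E, g θ = 0) :
    ∃ C ρ : ℝ, 0 < C ∧ 0 < ρ ∧ ρ < 1 ∧ ∀ n : ℕ, ‖fourierCoeff g (-(n : ℤ))‖ ≤ C * ρ ^ n := by
  obtain ⟨C, ρ, hC, hρ, hρ1, J, hJ⟩ := decay_gap hL hm hgap hη hM g hG2 hE hpos hgE
  have hgi : Integrable (g : Ci → ℂ) mu := (Lp.memLp g).integrable (by norm_num)
  set A := ∫ θ, ‖g θ‖ ∂mu with hA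
  have hA0 : 0 ≤ A := integral_nonneg fun _ => norm_nonneg _
  have hbd : ∀ n : ℤ, ‖fourierCoeff g n‖ ≤ A := by
    intro n
    unfold fourierCoeff
    refine (norm_integral_le_integral_norm _).trans (le_of_eq ?_)
    refine integral_congr_ae (Filter.Eventually.of_forall fun θ => ?_)
    simp only [smul_eq_mul, norm_mul, fourier_eq, norm_zpow, norm_ze, one_zpow, one_mul]
  refine ⟨max C ((A + 1) / ρ ^ m J), ρ, lt_max_of_lt_left hC, hρ, hρ1, fun n => ?_⟩
  by_cases hn : n < m J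
  · refine (hbd _).trans ?_
    refine le_trans ?_ (mul_le_mul_of_nonneg_right (le_max_right _ _) (by positivity))
    rw [div_mul_eq_mul_div, le_div_iff₀ (by positivity)]
    have h1 : ρ ^ m J ≤ ρ ^ n := pow_le_pow_of_le_one hρ.le hρ1.le hn.le
    nlinarith [pow_pos hρ n]
  push Not at hn
  -- locate `n` between two members of the sequence
  have hex : ∃ j, J ≤ j ∧ m j ≤ n ∧ n < m (j + 1) := by
    have h1 : ∃ k, n < m k := ⟨n + 1, lt_of_lt_of_le (Nat.lt_succ_self n) (hm.le_apply)⟩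
    classical
    set k := Nat.find h1 with hk
    have hk1 : n < m k := Nat.find_spec h1
    have hkJ : J < k := by
      by_contra h
      exact absurd (hm.monotone (not_lt.mp h)) (by omega)
    refine ⟨k - 1, by omega, ?_, by rwa [Nat.sub_add_cancel (by omega)]⟩
    exact not_lt.mp (Nat.find_min h1 (show k - 1 < k by omega))
  obtain ⟨j, hj, h1, h2⟩ := hex
  rcases h1.eq_or_lt with h3 | h3
  · rw [← h3]
    exact (hJ j hj).trans (mul_le_mul_of_nonneg_right (le_max_left _ _) (by positivity))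
  · rw [hG2 (j + 1) (by omega) (-(n : ℤ)) (by omega) (by rw [Nat.add_sub_cancel]; omega), norm_zero]
    positivity

end

end Pool.Agent.W767.HL
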