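import Pool.Agent.W767.HL.Poi

/-!
# Points of the disc from which a set of positive measure fills almost the whole circle
-/

namespace Pool.Agent.W767.HL

noncomputable section

open MeasureTheory AddCircle Complex Set

lemma norm_rze {r : ℝ} (hr : 0 ≤ r) (θ : Ci) : ‖(r : ℂ) * ze θ‖ = r := by
  rw [norm_mul, Complex.norm_real, Real.norm_of_nonneg hr, norm_ze, mul_one]

lemma P_symm {r : ℝ} (hr : 0 ≤ r) (θ φ : Ci) : P (r * ze θ) φ = P (r * ze φ) θ := by
  unfold P
  rw [norm_rze hr, norm_rze hr]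
  congr 1
  have h1 := norm_ze θ
  have h2 := norm_ze φ
  have h1' : (ze θ).re ^ 2 + (ze θ).im ^ 2 = 1 := by
    have := Complex.sq_norm (ze θ)
    rw [h1, Complex.normSq_apply] at this
    nlinarith
  have h2' : (ze φ).re ^ 2 + (ze φ).im ^ 2 = 1 := by
    have := Complex.sq_norm (ze φ)
    rw [h2, Complex.normSq_apply] at this
    nlinarith
  simp only [Complex.sq_norm, Complex.normSq_apply, sub_re, sub_im, mul_re, mul_im, ofReal_re,
    ofReal_im]
  linear_combination (1 - r ^ 2) * (h2' - h1')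

lemma exists_trig_near {u : Ci → ℝ} (hu : Continuous u) {ε : ℝ} (hε : 0 < ε) :
    ∃ H : ℂ → ℂ, Differentiable ℂ H ∧ ∀ θ, |u θ - (H (ze θ)).re| ≤ ε := by
  let U : C(Ci, ℂ) := ⟨fun θ => ((u θ : ℝ) : ℂ), Complex.continuous_ofReal.comp hu⟩
  have hU : U ∈ (Submodule.span ℂ (Set.range
      (fun n : ℤ => (fourier n : C(Ci, ℂ))))).topologicalClosure := by
    rw [span_fourier_closure_eq_top]
    trivial
  rw [← SetLike.mem_coe, Submodule.topologicalClosure_coe, Metric.mem_closure_iff] at hU
  obtain ⟨q, hq, hqu⟩ := hU ε hε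
  obtain ⟨H₁, H₂, h1, h2, h12⟩ := trig_split hq
  refine ⟨fun z => H₁ z + H₂ z, h1.add h2, fun θ => ?_⟩
  have h3 : (H₁ (ze θ) + H₂ (ze θ)).re = (q θ).re := by
    rw [h12]
    simp
  have h4 : ‖U θ - q θ‖ ≤ ε := by
    have := ContinuousMap.dist_apply_le_dist (f := U) (g := q) θ
    rw [dist_eq_norm] at this
    linarith
  have h5 := (Complex.abs_re_le_norm (U θ - q θ)).trans h4
  rw [h3]
  simpa [U] using h5

lemma exists_trig_L1 {χ : Ci → ℝ} (hχ : Integrable χ mu) {ε : ℝ} (hε : 0 < ε) :
    ∃ H : ℂ → ℂ, Differentiable ℂ H ∧ ∫ θ, |χ θ - (H (ze θ)).re| ∂mu ≤ ε := by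
  obtain ⟨g, hg, hgi⟩ := hχ.exists_boundedContinuous_integral_sub_le (half_pos hε)
  obtain ⟨H, hH, hHg⟩ := exists_trig_near g.continuous (half_pos hε)
  refine ⟨H, hH, ?_⟩
  have hcH : Continuous fun θ => (H (ze θ)).re :=
    Complex.continuous_re.comp (hH.continuous.comp continuous_ze)
  calc ∫ θ, |χ θ - (H (ze θ)).re| ∂mu ≤ ∫ θ, ‖χ θ - g θ‖ + ε / 2 ∂mu := by
        refine integral_mono ((hχ.sub (integrable_of_cont hcH)).abs)
          (((hχ.sub hgi).norm).add (integrable_const _)) fun θ => ?_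
        have h1 := hHg θ
        have h2 := abs_sub_le (χ θ) (g θ) (H (ze θ)).re
        simp only [Real.norm_eq_abs]
        linarith
    _ ≤ ε := by
        have i1 : Integrable (fun θ => ‖χ θ - g θ‖) mu := (hχ.sub hgi).norm
        rw [integral_add i1 (integrable_const _), integral_const]
        simp only [probReal_univ, one_smul]
        linarith

lemma exists_point {E : Set Ci} (hE : MeasurableSet E) (hpos : 0 < mu.real E) {δ : ℝ}
    (hδ : 0 < δ) {r₀ : ℝ} (hr₀ : r₀ < 1) :
    ∃ w : ℂ, r₀ < ‖w‖ ∧ ‖w‖ < 1 ∧ w ≠ 0 ∧ ∫ θ in Eᶜ, P w θ ∂mu ≤ δ := by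
  set η : ℝ := δ * mu.real E / 6 with hη
  have hη0 : 0 < η := by positivity
  set χ : Ci → ℝ := E.indicator 1 with hχ
  have hχi : Integrable χ mu := (integrable_const (1 : ℝ)).indicator hE
  obtain ⟨H, hH, hHχ⟩ := exists_trig_L1 hχi hη0
  have hcH : Continuous fun θ => (H (ze θ)).re :=
    Complex.continuous_re.comp (hH.continuous.comp continuous_ze)
  -- a radius
  obtain ⟨r, hr0, hr1, hrr, hr⟩ : ∃ r : ℝ, 0 < r ∧ r < 1 ∧ r₀ < r ∧
      ∀ θ, |(H (r * ze θ)).re - (H (ze θ)).re| ≤ η := by
    have huc : UniformContinuousOn H (Metric.closedBall 0 1) :=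
      (isCompact_closedBall _ _).uniformContinuousOn_of_continuous hH.continuous.continuousOn
    rw [Metric.uniformContinuousOn_iff] at huc
    obtain ⟨d, hd, hd'⟩ := huc η hη0
    set r := max (1 - d / 2) (max (1 / 2) ((1 + r₀) / 2)) with hrdef
    have hr0' : 1 / 2 ≤ r := (le_max_left _ _).trans (le_max_right _ _)
    have hr0 : 0 ≤ r := by linarith
    have hr1 : r < 1 := max_lt (by linarith) (max_lt (by norm_num) (by linarith))
    have hr2 : 1 - d / 2 ≤ r := le_max_left _ _
    have hr3 : (1 + r₀) / 2 ≤ r := (le_max_right _ _).trans (le_max_right _ _)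
    refine ⟨r, by linarith, hr1, by linarith, ?_⟩
    intro θ
    have h1 := hd' (r * ze θ) (by
      rw [mem_closedBall_zero_iff, norm_rze hr0]
      exact hr1.le) (ze θ) (by rw [mem_closedBall_zero_iff, norm_ze]) (by
      rw [dist_eq_norm]
      have : (r : ℂ) * ze θ - ze θ = ((r - 1 : ℝ) : ℂ) * ze θ := by push_cast; ring
      rw [this, norm_mul, norm_ze, mul_one, Complex.norm_real, Real.norm_eq_abs, abs_lt]
      constructor <;> linarith)
    rw [dist_eq_norm] at h1
    have h2 := Complex.abs_re_le_norm (H (r * ze θ) - H (ze θ))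
    rw [sub_re] at h2
    exact h2.trans h1.le
  have hw : ∀ θ, ‖(r : ℂ) * ze θ‖ < 1 := fun θ => by rw [norm_rze hr0.le]; exact hr1
  by_contra hcon
  push Not at hcon
  set D : Ci → ℝ := fun θ => ∫ φ, P (r * ze θ) φ * |χ φ - (H (ze φ)).re| ∂mu with hD
  have habs : Integrable (fun φ => |χ φ - (H (ze φ)).re|) mu :=
    (hχi.sub (integrable_of_cont hcH)).abs
  have hjc : Continuous fun p : Ci × Ci => P (r * ze p.1) p.2 := by
    unfold P
    have h3 : Continuous fun p : Ci × Ci => (r : ℂ) * ze p.1 :=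
      continuous_const.mul (continuous_ze.comp continuous_fst)
    refine Continuous.div (continuous_const.sub (h3.norm.pow 2))
      (((continuous_ze.comp continuous_snd).sub h3).norm.pow 2) fun p => ?_
    have h4 := dist_pos ((r : ℂ) * ze p.1) p.2
    have h5 := hw p.1
    have h6 : 0 < ‖ze p.2 - (r : ℂ) * ze p.1‖ := by linarith
    positivity
  have hprod : Integrable (Function.uncurry fun θ φ => P (r * ze θ) φ * |χ φ - (H (ze φ)).re|)
      (mu.prod mu) := by
    have h3 : Integrable (fun p : Ci × Ci => |χ p.2 - (H (ze p.2)).re|) (mu.prod mu) :=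
      Integrable.comp_snd habs mu
    have h4 := h3.bdd_mul (c := 2 / (1 - r)) (f := fun p : Ci × Ci => P (r * ze p.1) p.2)
      hjc.aestronglyMeasurable (Filter.Eventually.of_forall fun p => by
        rw [Real.norm_of_nonneg (P_pos (hw p.1) p.2).le]
        have := P_le (hw p.1) p.2
        rwa [norm_rze hr0.le] at this)
    exact h4
  have hDi : Integrable D mu := hprod.integral_prod_left
  have hDint : ∫ θ, D θ ∂mu ≤ η := by
    rw [hD]
    rw [integral_integral_swap hprod]
    refine le_trans (le_of_eq ?_) hHχ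
    refine integral_congr_ae (Filter.Eventually.of_forall fun φ => ?_)
    simp only
    rw [integral_mul_const]
    have : ∫ θ, P (r * ze θ) φ ∂mu = 1 :=
      (integral_congr_ae (Filter.Eventually.of_forall fun θ => P_symm hr0.le θ φ)).trans
        (integral_P (hw φ))
    rw [this, one_mul]
  have hD0 : ∀ θ, 0 ≤ D θ := fun θ =>
    integral_nonneg fun φ => mul_nonneg (P_pos (hw θ) φ).le (abs_nonneg _)
  -- lower bound for the harmonic measure of `E`
  have hlow : ∀ θ, (H (ze θ)).re - η - D θ ≤ ∫ φ in E, P (r * ze θ) φ ∂mu := by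
    intro θ
    have e1 : ∫ φ in E, P (r * ze θ) φ ∂mu = ∫ φ, P (r * ze θ) φ * χ φ ∂mu := by
      rw [← integral_indicator hE]
      refine integral_congr_ae (Filter.Eventually.of_forall fun φ => ?_)
      by_cases hφ : φ ∈ E <;> simp [hχ, hφ]
    have i1 : Integrable (fun φ => P (r * ze θ) φ * χ φ) mu := by
      simpa using integrable_P_mul (hw θ) hχi
    have i2 : Integrable (fun φ => P (r * ze θ) φ * (H (ze φ)).re) mu :=
      integrable_of_cont ((continuous_P (hw θ)).mul hcH)
    have i3 : Integrable (fun φ => P (r * ze θ) φ * |χ φ - (H (ze φ)).re|) mu := by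
      simpa using integrable_P_mul (hw θ) habs
    have e2 : (H (r * ze θ)).re - D θ ≤ ∫ φ, P (r * ze θ) φ * χ φ ∂mu := by
      rw [← poisson_re hH (hw θ), hD]
      simp only
      rw [← integral_sub i2 i3]
      refine integral_mono (i2.sub i3) i1 fun φ => ?_
      simp only
      have h7 := P_pos (hw θ) φ
      have h8 := neg_abs_le (χ φ - (H (ze φ)).re)
      nlinarith
    have h9 := (abs_le.mp (hr θ)).1
    rw [e1]
    linarith
  have hup : ∀ θ, ∫ φ in E, P (r * ze θ) φ ∂mu ≤ 1 - δ := by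
    intro θ
    have h1 := hcon _ (by rw [norm_rze hr0.le]; exact hrr) (hw θ) (mul_ne_zero (by exact_mod_cast hr0.ne') (ze_ne θ))
    have h2 := integral_add_compl hE (integrable_of_cont (continuous_P (hw θ)))
    rw [integral_P (hw θ)] at h2
    linarith
  -- integrate over `E`
  have i4 : Integrable (fun θ => (H (ze θ)).re) mu := integrable_of_cont hcH
  have h1 : ∫ θ in E, ((H (ze θ)).re - η - D θ) ∂mu ≤ ∫ θ in E, (1 - δ) ∂mu := by
    refine integral_mono ((i4.sub (integrable_const η)).sub hDi).integrableOn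
      (integrable_const _) fun θ => (hlow θ).trans (hup θ)
  have h2 : ∫ θ in E, (1 - δ) ∂mu = (1 - δ) * mu.real E := by
    rw [setIntegral_const, smul_eq_mul, mul_comm]
  have h3 : ∫ θ in E, ((H (ze θ)).re - η - D θ) ∂mu
      = ∫ θ in E, (H (ze θ)).re ∂mu - η * mu.real E - ∫ θ in E, D θ ∂mu := by
    have a1 : Integrable (fun θ => (H (ze θ)).re) (mu.restrict E) := i4.integrableOn
    have a2 : Integrable (fun _ : Ci => η) (mu.restrict E) := integrable_const _
    have a3 : Integrable D (mu.restrict E) := hDi.integrableOn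
    have a4 : Integrable (fun θ => (H (ze θ)).re - η) (mu.restrict E) := a1.sub a2
    rw [integral_sub a4 a3, integral_sub a1 a2, setIntegral_const, smul_eq_mul, mul_comm η]
  have h4 : ∫ θ in E, D θ ∂mu ≤ η :=
    (setIntegral_le_integral hDi (Filter.Eventually.of_forall hD0)).trans hDint
  have h5 : mu.real E - η ≤ ∫ θ in E, (H (ze θ)).re ∂mu := by
    have b1 : ∫ θ in E, |χ θ - (H (ze θ)).re| ∂mu ≤ η :=
      (setIntegral_le_integral habs (Filter.Eventually.of_forall fun _ => abs_nonneg _)).trans hHχ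
    have b2 : ∫ θ in E, (1 - |χ θ - (H (ze θ)).re|) ∂mu ≤ ∫ θ in E, (H (ze θ)).re ∂mu := by
      refine setIntegral_mono_on ((integrable_const _).sub habs).integrableOn i4.integrableOn hE
        fun θ hθ => ?_
      have h6 := le_abs_self (χ θ - (H (ze θ)).re)
      have h7 : χ θ = 1 := by simp [hχ, hθ]
      linarith
    have b3 : ∫ θ in E, (1 - |χ θ - (H (ze θ)).re|) ∂mu
        = mu.real E - ∫ θ in E, |χ θ - (H (ze θ)).re| ∂mu := by
      have a1 : Integrable (fun _ : Ci => (1 : ℝ)) (mu.restrict E) := integrable_const _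
      rw [integral_sub a1 habs.integrableOn, setIntegral_const, smul_eq_mul, mul_one]
    linarith
  have h6 : η * mu.real E ≤ η := by
    have : mu.real E ≤ 1 := measureReal_le_one
    nlinarith
  have h7 : 6 * η = δ * mu.real E := by rw [hη]; ring
  nlinarith

end

end Pool.Agent.W767.HL
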