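import Pool.Agent.W767.HL.Dens

/-!
# Logarithmic integrals: Lipschitz dependence and upper bounds
-/

namespace Pool.Agent.W767.HL

noncomputable section

open MeasureTheory AddCircle Complex Set Filter Topology

lemma log_lip {a : ℝ} (ha : 0 < a) (x y : ℝ) :
    |Real.log (a + x ^ 2) - Real.log (a + y ^ 2)| ≤ |x - y| / Real.sqrt a := by
  have hsa : 0 < Real.sqrt a := Real.sqrt_pos.mpr ha
  have hsq : Real.sqrt a ^ 2 = a := Real.sq_sqrt ha.le
  have hd : ∀ z : ℝ, HasDerivAt (fun z => Real.log (a + z ^ 2)) (2 * z / (a + z ^ 2)) z := by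
    intro z
    have h1 : HasDerivAt (fun z : ℝ => a + z ^ 2) (2 * z) z := by
      simpa using (hasDerivAt_pow 2 z).const_add a
    exact h1.log (by positivity)
  have hb : ∀ z ∈ (Set.univ : Set ℝ), ‖deriv (fun z => Real.log (a + z ^ 2)) z‖
      ≤ 1 / Real.sqrt a := by
    intro z _
    rw [(hd z).deriv, Real.norm_eq_abs, abs_div, abs_of_pos (show 0 < a + z ^ 2 by positivity),
      div_le_div_iff₀ (by positivity) hsa, abs_mul, abs_two, one_mul]
    nlinarith [sq_nonneg (|z| - Real.sqrt a), sq_abs z]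
  have h := Convex.norm_image_sub_le_of_norm_deriv_le
    (fun z _ => (hd z).differentiableAt) hb convex_univ (Set.mem_univ y) (Set.mem_univ x)
  rw [Real.norm_eq_abs, Real.norm_eq_abs] at h
  refine h.trans (le_of_eq ?_)
  ring

/-- The logarithmic integral. -/
def La (w : ℂ) (a : ℝ) (g : Ci → ℂ) : ℝ := ∫ θ, P w θ * Real.log (a + ‖g θ‖ ^ 2) ∂mu

lemma integrable_log {a : ℝ} (ha : 0 < a) {g : Ci → ℂ} (hg : Integrable g mu) :
    Integrable (fun θ => Real.log (a + ‖g θ‖ ^ 2)) mu := by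
  have hm : AEStronglyMeasurable (fun θ => Real.log (a + ‖g θ‖ ^ 2)) mu := by
    have h1 : AEMeasurable (fun θ => a + ‖g θ‖ ^ 2) mu :=
      (hg.1.norm.aemeasurable.pow_const 2).const_add a
    exact (Real.measurable_log.comp_aemeasurable h1).aestronglyMeasurable
  have hd : Integrable (fun θ => |Real.log a| + ‖g θ‖ / Real.sqrt a) mu :=
    (integrable_const _).add (hg.norm.div_const _)
  refine hd.mono' hm (Filter.Eventually.of_forall fun θ => ?_)
  have h := log_lip ha ‖g θ‖ 0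
  rw [sub_zero, abs_of_nonneg (norm_nonneg (g θ)), zero_pow two_ne_zero, add_zero] at h
  rw [Real.norm_eq_abs]
  have h2 := abs_sub_abs_le_abs_sub (Real.log (a + ‖g θ‖ ^ 2)) (Real.log a)
  linarith

lemma integrable_P_log {w : ℂ} (hw : ‖w‖ < 1) {a : ℝ} (ha : 0 < a) {g : Ci → ℂ}
    (hg : Integrable g mu) : Integrable (fun θ => P w θ * Real.log (a + ‖g θ‖ ^ 2)) mu := by
  simpa using integrable_P_mul hw (integrable_log ha hg)

lemma La_tendsto {w : ℂ} (hw : ‖w‖ < 1) {a : ℝ} (ha : 0 < a) {g : Ci → ℂ} (hg : Integrable g mu)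
    {G : ℕ → Ci → ℂ} (hG : ∀ N, Integrable (G N) mu)
    (hlim : Tendsto (fun N => ∫ θ, ‖G N θ - g θ‖ ∂mu) atTop (𝓝 0)) :
    Tendsto (fun N => La w a (G N)) atTop (𝓝 (La w a g)) := by
  rw [tendsto_iff_norm_sub_tendsto_zero]
  have hsa : 0 < Real.sqrt a := Real.sqrt_pos.mpr ha
  have hw0 : 0 < 1 - ‖w‖ := by linarith
  refine squeeze_zero (fun _ => norm_nonneg _) (fun N => ?_)
    (g := fun N => (2 / (1 - ‖w‖) / Real.sqrt a) * ∫ θ, ‖G N θ - g θ‖ ∂mu) ?_
  · unfold La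
    rw [← integral_sub (integrable_P_log hw ha (hG N)) (integrable_P_log hw ha hg)]
    refine (norm_integral_le_integral_norm _).trans ?_
    rw [← integral_const_mul]
    refine integral_mono ((integrable_P_log hw ha (hG N)).sub (integrable_P_log hw ha hg)).norm
      (((hG N).sub hg).norm.const_mul _) fun θ => ?_
    simp only
    rw [← mul_sub, norm_mul, Real.norm_of_nonneg (P_pos hw θ).le, Real.norm_eq_abs]
    have h1 := log_lip ha ‖G N θ‖ ‖g θ‖
    have h2 := abs_norm_sub_norm_le (G N θ) (g θ)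
    calc P w θ * |Real.log (a + ‖G N θ‖ ^ 2) - Real.log (a + ‖g θ‖ ^ 2)|
        ≤ (2 / (1 - ‖w‖)) * (‖G N θ - g θ‖ / Real.sqrt a) := by
          refine mul_le_mul (P_le hw θ) (h1.trans (by gcongr)) (abs_nonneg _) (by positivity)
      _ = 2 / (1 - ‖w‖) / Real.sqrt a * ‖G N θ - g θ‖ := by ring
  · simpa using hlim.const_mul (2 / (1 - ‖w‖) / Real.sqrt a)

/-- Upper bound for the logarithmic integral of a function which is at most `σ` on `E`. -/
lemma La_le {w : ℂ} (hw : ‖w‖ < 1) {a : ℝ} (ha : 0 < a) (ha1 : a ≤ 1) {g : Ci → ℂ}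
    (hg : Integrable g mu) {E : Set Ci} (hE : MeasurableSet E) {σ : ℝ}
    (hσ : ∀ θ ∈ E, ‖g θ‖ ≤ σ) :
    La w a g ≤ (∫ θ in E, P w θ ∂mu) * Real.log (a + σ ^ 2) + 2 * ∫ θ, P w θ * ‖g θ‖ ∂mu := by
  unfold La
  have hi := integrable_P_log hw ha hg
  have hPg : Integrable (fun θ => P w θ * ‖g θ‖) mu := by
    simpa using integrable_P_mul hw hg.norm
  have hP : Integrable (P w) mu := integrable_of_cont (continuous_P hw)
  rw [← integral_add_compl hE hi, ← integral_mul_const]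
  refine add_le_add ?_ ?_
  · refine setIntegral_mono_on hi.integrableOn (hP.mul_const _).integrableOn hE fun θ hθ => ?_
    refine mul_le_mul_of_nonneg_left ?_ (P_pos hw θ).le
    refine Real.log_le_log (by positivity) ?_
    have := pow_le_pow_left₀ (norm_nonneg _) (hσ θ hθ) 2
    linarith
  · rw [← integral_const_mul]
    refine le_trans ?_ (setIntegral_le_integral (s := Eᶜ) (hPg.const_mul 2)
      (Filter.Eventually.of_forall fun θ =>
        mul_nonneg two_pos.le (mul_nonneg (P_pos hw θ).le (norm_nonneg _))))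
    refine integral_mono hi.integrableOn (hPg.const_mul 2).integrableOn fun θ => ?_
    simp only
    have h1 : Real.log (a + ‖g θ‖ ^ 2) ≤ 2 * ‖g θ‖ := by
      have h2 : Real.log (a + ‖g θ‖ ^ 2) ≤ Real.log ((1 + ‖g θ‖) ^ 2) :=
        Real.log_le_log (by positivity) (by nlinarith [norm_nonneg (g θ)])
      rw [Real.log_pow] at h2
      have h3 := Real.log_le_sub_one_of_pos (show 0 < 1 + ‖g θ‖ by positivity)
      push_cast at h2
      linarith
    calc P w θ * Real.log (a + ‖g θ‖ ^ 2) ≤ P w θ * (2 * ‖g θ‖) :=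
          mul_le_mul_of_nonneg_left h1 (P_pos hw θ).le
      _ = 2 * (P w θ * ‖g θ‖) := by ring

lemma Pint_tendsto {w : ℂ} (hw : ‖w‖ < 1) {g : Ci → ℂ} (hg : Integrable g mu)
    {G : ℕ → Ci → ℂ} (hG : ∀ N, Integrable (G N) mu)
    (hlim : Tendsto (fun N => ∫ θ, ‖G N θ - g θ‖ ∂mu) atTop (𝓝 0)) :
    ∃ B : ℝ, ∀ N, ∫ θ, P w θ * ‖G N θ‖ ∂mu ≤ B := by
  obtain ⟨B, hB⟩ := hlim.bddAbove_range
  have hw0 : 0 < 1 - ‖w‖ := by linarith
  refine ⟨2 / (1 - ‖w‖) * (∫ θ, ‖g θ‖ ∂mu + B), fun N => ?_⟩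
  have h1 : ∫ θ, ‖G N θ - g θ‖ ∂mu ≤ B := hB ⟨N, rfl⟩
  have i1 : Integrable (fun θ => ‖G N θ - g θ‖) mu := ((hG N).sub hg).norm
  have h2 : ∫ θ, ‖G N θ‖ ∂mu ≤ ∫ θ, ‖g θ‖ ∂mu + ∫ θ, ‖G N θ - g θ‖ ∂mu := by
    rw [← integral_add hg.norm i1]
    refine integral_mono (hG N).norm (hg.norm.add i1) fun θ => ?_
    simp only
    have := norm_add_le (g θ) (G N θ - g θ)
    rwa [add_sub_cancel] at this
  calc ∫ θ, P w θ * ‖G N θ‖ ∂mu ≤ ∫ θ, 2 / (1 - ‖w‖) * ‖G N θ‖ ∂mu := by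
        refine integral_mono (by simpa using integrable_P_mul hw (hG N).norm)
          ((hG N).norm.const_mul _) fun θ => ?_
        exact mul_le_mul_of_nonneg_right (P_le hw θ) (norm_nonneg _)
    _ = 2 / (1 - ‖w‖) * ∫ θ, ‖G N θ‖ ∂mu := integral_const_mul _ _
    _ ≤ _ := by
        refine mul_le_mul_of_nonneg_left ?_ (by positivity)
        linarith

/-- Truncation of a sequence of Fourier coefficients. -/
def tr (c : ℤ → ℂ) (a b : ℤ) : ℤ →₀ ℂ := ∑ n ∈ Finset.Icc a b, Finsupp.single n (c n)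

lemma tr_apply (c : ℤ → ℂ) (a b n : ℤ) : tr c a b n = if a ≤ n ∧ n ≤ b then c n else 0 := by
  unfold tr
  rw [Finsupp.finsetSum_apply]
  by_cases h : a ≤ n ∧ n ≤ b
  · rw [if_pos h, Finset.sum_eq_single n]
    · simp
    · intro k _ hk
      rw [Finsupp.single_apply, if_neg hk]
    · intro h'
      exact absurd (Finset.mem_Icc.mpr h) h'
  · rw [if_neg h]
    refine Finset.sum_eq_zero fun k hk => ?_
    rw [Finsupp.single_apply, if_neg]
    rintro rfl
    exact h (Finset.mem_Icc.mp hk)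

lemma ev_tr (c : ℤ → ℂ) (a b : ℤ) (z : ℂ) :
    ev (tr c a b) z = ∑ n ∈ Finset.Icc a b, c n * z ^ n := by
  unfold tr ev
  rw [map_sum]
  simp

lemma continuous_ev_ze (f : ℤ →₀ ℂ) : Continuous fun θ => ev f (ze θ) := by
  simp only [ev_eq_sum, Finsupp.sum]
  refine continuous_finsetSum _ fun n _ => continuous_const.mul ?_
  have : (fun θ => ze θ ^ n) = fun θ => (fourier n θ : ℂ) := by
    ext θ
    rw [fourier_eq]
  rw [this]
  exact (fourier n).continuous

lemma tendsto_Icc {a b : ℕ → ℤ} (ha : Tendsto a atTop atBot) (hb : Tendsto b atTop atTop) :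
    Tendsto (fun N => Finset.Icc (a N) (b N)) atTop atTop := by
  rw [tendsto_atTop]
  intro s
  obtain ⟨l, hl⟩ := s.bddBelow
  obtain ⟨u, hu⟩ := s.bddAbove
  filter_upwards [ha.eventually_le_atBot l, hb.eventually_ge_atTop u] with N h1 h2
  intro x hx
  exact Finset.mem_Icc.mpr ⟨h1.trans (hl hx), (hu hx).trans h2⟩

lemma trunc_tendsto (g : Lp ℂ 2 mu) :
    Tendsto (fun N : ℕ => ∫ θ, ‖ev (tr (fourierCoeff g) (-(N : ℤ)) N) (ze θ) - g θ‖ ∂mu)
      atTop (𝓝 0) := by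
  have h := hasSum_fourier_series_L2 g
  have hb : Tendsto (fun N : ℕ => (N : ℤ)) atTop atTop := tendsto_natCast_atTop_atTop
  have h2 := h.comp (tendsto_Icc (tendsto_neg_atTop_atBot.comp hb) hb)
  rw [tendsto_iff_norm_sub_tendsto_zero] at h2
  refine squeeze_zero (fun _ => integral_nonneg fun _ => norm_nonneg _) (fun N => ?_) h2
  set F : Lp ℂ 2 mu := ∑ i ∈ Finset.Icc (-(N : ℤ)) N, fourierCoeff g i • fourierLp 2 i with hF
  have hcoe : (F : Ci → ℂ) =ᵐ[mu] fun θ => ev (tr (fourierCoeff g) (-(N : ℤ)) N) (ze θ) := by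
    have h3 : F = ContinuousMap.toLp (E := ℂ) 2 mu ℂ
        (∑ i ∈ Finset.Icc (-(N : ℤ)) N, fourierCoeff g i • fourier i) := by
      rw [hF, map_sum]
      refine Finset.sum_congr rfl fun i _ => ?_
      rw [map_smul]
    rw [h3]
    refine (ContinuousMap.coeFn_toLp mu _).trans (Filter.Eventually.of_forall fun θ => ?_)
    simp only [ContinuousMap.coe_sum, Finset.sum_apply, ContinuousMap.smul_apply, smul_eq_mul,
      fourier_eq, ev_tr]
  have hsub : (fun θ => ev (tr (fourierCoeff g) (-(N : ℤ)) N) (ze θ) - g θ) =ᵐ[mu] (F - g : Lp ℂ 2 mu)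
      := by
    filter_upwards [hcoe, Lp.coeFn_sub F g] with θ h4 h5
    rw [h5, Pi.sub_apply, h4]
  calc ∫ θ, ‖ev (tr (fourierCoeff g) (-(N : ℤ)) N) (ze θ) - g θ‖ ∂mu
      = ∫ θ, ‖(F - g : Lp ℂ 2 mu) θ‖ ∂mu := by
        refine integral_congr_ae ?_
        filter_upwards [hsub] with θ h4
        rw [h4]
    _ = (eLpNorm (F - g : Lp ℂ 2 mu) 1 mu).toReal := by
        rw [integral_norm_eq_lintegral_enorm (Lp.aestronglyMeasurable _), eLpNorm_one_eq_lintegral_enorm]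
    _ ≤ (eLpNorm (F - g : Lp ℂ 2 mu) 2 mu).toReal := by
        refine ENNReal.toReal_mono (Lp.eLpNorm_ne_top _) ?_
        exact eLpNorm_le_eLpNorm_of_exponent_le (by norm_num) (Lp.aestronglyMeasurable _)
    _ = ‖F - g‖ := (Lp.norm_def _).symm

end

end Pool.Agent.W767.HL
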