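import Pool.Agent.W767.HL.Lim

/-!
# If a half-lacunary series vanishes on a set of positive measure, then its negative coefficients
decay exponentially.
-/

namespace Pool.Agent.W767.HL

noncomputable section

open MeasureTheory AddCircle Complex Set Filter Topology

lemma differentiable_ev {f : ℤ →₀ ℂ} (hf : ∀ n : ℤ, n < 0 → f n = 0) :
    Differentiable ℂ (ev f) := by
  have : ev f = fun z => ∑ n ∈ f.support, f n * z ^ n := by
    ext z
    rw [ev_eq_sum, Finsupp.sum]
  rw [this]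
  refine Differentiable.fun_sum fun n hn => (Differentiable.const_mul ?_ _)
  have hn0 : 0 ≤ n := by
    by_contra h
    exact (Finsupp.mem_support_iff.mp hn) (hf n (by omega))
  lift n to ℕ using hn0
  simp only [zpow_natCast]
  exact differentiable_id.pow n

/-- The value at `w` of a polynomial with a spectral gap is close to its constant term. -/
lemma gap_bound {f : ℤ →₀ ℂ} {t : ℝ} {M : ℕ} (hf : ∀ n : ℤ, n < 0 → f n = 0) (hf0 : f 0 = t)
    (hfM : ∀ n : ℤ, 0 < n → n < M → f n = 0) (ht : 0 ≤ t) {w : ℂ} (hw : ‖w‖ < 1) (hw0 : w ≠ 0)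
    {b : Ci → ℝ} (hb : Integrable b mu) (hfb : ∀ θ, ‖ev f (ze θ)‖ ≤ b θ) :
    ‖ev f w - t‖ ≤ ‖w‖ ^ M * (∫ θ, P w θ * b θ ∂mu + t) := by
  set h : ℤ →₀ ℂ := sh (-(M : ℤ)) (f - Finsupp.single 0 (t : ℂ)) with hh
  have hneg : ∀ n : ℤ, n < 0 → h n = 0 := by
    intro n hn
    rw [hh, sh_apply, Finsupp.sub_apply, sub_neg_eq_add, Finsupp.single_apply]
    split_ifs with h1
    · rw [← h1, hf0, sub_self]
    · rw [sub_zero]
      rcases lt_trichotomy (n + M) 0 with h2 | h2 | h2
      · exact hf _ h2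
      · exact absurd h2.symm h1
      · exact hfM _ h2 (by omega)
  have hev : ∀ z : ℂ, z ≠ 0 → ev f z - t = z ^ M * ev h z := by
    intro z hz
    rw [hh, ev_sh _ _ hz, ev_sub, ev_single, zpow_zero, mul_one, ← mul_assoc, ← zpow_natCast,
      ← zpow_add₀ hz, add_neg_cancel, zpow_zero, one_mul]
  rw [hev w hw0, norm_mul, norm_pow]
  refine mul_le_mul_of_nonneg_left ?_ (by positivity)
  refine (norm_poisson_le (differentiable_ev hneg) hw).trans ?_
  have hPb : Integrable (fun θ => P w θ * b θ) mu := by simpa using integrable_P_mul hw hb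
  have hPt : Integrable (fun θ => P w θ * t) mu :=
    integrable_of_cont ((continuous_P hw).mul continuous_const)
  calc ∫ θ, P w θ * ‖ev h (ze θ)‖ ∂mu ≤ ∫ θ, P w θ * b θ + P w θ * t ∂mu := by
        refine integral_mono (integrable_of_cont ((continuous_P hw).mul
          (continuous_ev_ze h).norm)) (hPb.add hPt) fun θ => ?_
        simp only
        rw [← mul_add]
        refine mul_le_mul_of_nonneg_left ?_ (P_pos hw θ).le
        have h1 : ‖ev h (ze θ)‖ = ‖ev f (ze θ) - t‖ := by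
          rw [hev _ (ze_ne θ), norm_mul, norm_pow, norm_ze, one_pow, one_mul]
        rw [h1]
        refine (norm_sub_le _ _).trans (add_le_add (hfb θ) ?_)
        rw [Complex.norm_real, Real.norm_of_nonneg ht]
    _ = ∫ θ, P w θ * b θ ∂mu + t := by
        rw [integral_add hPb hPt, integral_mul_const, integral_P hw, one_mul]

/-- The main inequality, for one truncation. -/
lemma trunc_ineq {L : ℕ} (hL : 0 < L) {m : ℕ → ℕ} (hm : StrictMono m)
    (hgap : ∀ j, L ≤ j → m (j - L) + m (j - 1) ≤ m j) {M K j0 : ℕ} (hK : j0 < K)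
    (hM : ∀ j, j0 < j → M + m (j - 1) ≤ m j) {G : ℤ →₀ ℂ}
    (hG : ∀ n : ℤ, n < -(m K : ℤ) → G n = 0)
    (hG2 : ∀ j, 1 ≤ j → ∀ n : ℤ, -(m j : ℤ) < n → n < -(m (j - 1) : ℤ) → G n = 0)
    {w : ℂ} (hw : ‖w‖ < 1) (hw0 : w ≠ 0) {B : ℝ}
    (hB : ∫ θ, P w θ * ‖ev G (ze θ)‖ ∂mu ≤ B) (hB0 : ∫ θ, P 0 θ * ‖ev G (ze θ)‖ ∂mu ≤ B)
    {s : ℝ} (hs : 0 < s) (hs1 : s ≤ 1) (hsM : ‖w‖ ^ M * (2 * (L + B)) ≤ s / 2)
    (ha : 0 < ‖G (-(m (j0 + 1) : ℤ))‖) :
    2 * ((L * Real.log s + Real.log ‖G (-(m (j0 + 1) : ℤ))‖) / (L + 1) - Real.log 2)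
      ≤ La w (L * s ^ 2) (fun θ => ev G (ze θ)) := by
  obtain ⟨f, t, hst, hneg, hf0, hfM, hle, hgrow⟩ := alg hL hs hm hgap hK hM hG hG2
  have ht : 0 < t := hs.trans_le hst
  have hL1 : (1 : ℝ) ≤ L := by exact_mod_cast hL
  have hbd : ∀ θ, ‖ev f (ze θ)‖ ≤ L + ‖ev G (ze θ)‖ := by
    intro θ
    have h1 := hle _ (norm_ze θ)
    refine le_of_sq_le_sq (h1.trans ?_) (by positivity)
    have h2 : s ^ 2 ≤ 1 := pow_le_one₀ hs.le hs1
    nlinarith [norm_nonneg (ev G (ze θ)), mul_nonneg (Nat.cast_nonneg (α := ℝ) L)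
      (norm_nonneg (ev G (ze θ)))]
  have hcG := continuous_ev_ze G
  have hbi : Integrable (fun θ => (L : ℝ) + ‖ev G (ze θ)‖) mu :=
    integrable_of_cont (continuous_const.add hcG.norm)
  have hint : ∀ v : ℂ, ‖v‖ < 1 → ∫ θ, P v θ * ((L : ℝ) + ‖ev G (ze θ)‖) ∂mu
      = L + ∫ θ, P v θ * ‖ev G (ze θ)‖ ∂mu := by
    intro v hv
    have i1 : Integrable (fun θ => P v θ * (L : ℝ)) mu :=
      integrable_of_cont ((continuous_P hv).mul continuous_const)
    have i2 : Integrable (fun θ => P v θ * ‖ev G (ze θ)‖) mu :=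
      integrable_of_cont ((continuous_P hv).mul hcG.norm)
    simp only [mul_add]
    rw [integral_add i1 i2, integral_mul_const, integral_P hv, one_mul]
  have htle : t ≤ L + B := by
    have h1 := norm_poisson_le (differentiable_ev hneg) (w := 0) (by simp)
    have h2 : ev f 0 = t := by
      rw [ev_eq_sum, Finsupp.sum]
      rw [← hf0]
      by_cases h0 : (0 : ℤ) ∈ f.support
      · rw [Finset.sum_eq_single 0]
        · simp
        · intro n _ hn
          rw [zero_zpow n hn, mul_zero]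
        · exact fun h => absurd h0 h
      · rw [Finset.sum_eq_zero]
        · exact (Finsupp.notMem_support_iff.mp h0).symm
        · intro n hn
          have : n ≠ 0 := fun h => h0 (h ▸ hn)
          rw [zero_zpow n this, mul_zero]
    rw [h2, Complex.norm_real, Real.norm_of_nonneg ht.le] at h1
    refine h1.trans ?_
    have h3 : ∫ θ, P 0 θ * ‖ev f (ze θ)‖ ∂mu ≤ ∫ θ, P 0 θ * ((L : ℝ) + ‖ev G (ze θ)‖) ∂mu := by
      refine integral_mono (integrable_of_cont ((continuous_P (by simp)).mul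
        (continuous_ev_ze f).norm)) (integrable_of_cont ((continuous_P (by simp)).mul
        (continuous_const.add hcG.norm))) fun θ => ?_
      exact mul_le_mul_of_nonneg_left (hbd θ) (P_pos (by simp) θ).le
    rw [hint 0 (by simp)] at h3
    linarith
  have hclose : ‖ev f w - t‖ ≤ s / 2 := by
    refine (gap_bound hneg hf0 hfM ht.le hw hw0 hbi hbd).trans ?_
    rw [hint w hw]
    refine le_trans (mul_le_mul_of_nonneg_left ?_ (by positivity)) hsM
    linarith
  have hlow : t / 2 ≤ ‖ev f w‖ := by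
    have h1 := norm_sub_norm_le (t : ℂ) (t - ev f w)
    rw [sub_sub_cancel, Complex.norm_real, Real.norm_of_nonneg ht.le, norm_sub_rev] at h1
    linarith
  have hj := jensen (differentiable_ev hneg) (v := fun θ => L * s ^ 2 + ‖ev G (ze θ)‖ ^ 2)
    (continuous_const.add (hcG.norm.pow 2)) (fun θ => by positivity)
    (fun θ => hle _ (norm_ze θ)) hw
  have h2 : (t / 2) ^ 2 ≤ Real.exp (La w (L * s ^ 2) (fun θ => ev G (ze θ))) :=
    (pow_le_pow_left₀ (by positivity) hlow 2).trans hj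
  have h3 : 2 * Real.log (t / 2) ≤ La w (L * s ^ 2) (fun θ => ev G (ze θ)) := by
    have := Real.log_le_log (by positivity) h2
    rw [Real.log_exp, Real.log_pow] at this
    exact_mod_cast this
  have h4 : L * Real.log s + Real.log ‖G (-(m (j0 + 1) : ℤ))‖ ≤ (L + 1) * Real.log t := by
    have := Real.log_le_log (by positivity) hgrow
    rw [Real.log_mul (by positivity) ha.ne', Real.log_pow, Real.log_pow] at this
    push_cast at this
    exact this
  have h5 : (L * Real.log s + Real.log ‖G (-(m (j0 + 1) : ℤ))‖) / (L + 1) ≤ Real.log t := by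
    rw [div_le_iff₀ (by positivity)]
    linarith
  rw [Real.log_div ht.ne' two_ne_zero] at h3
  linarith

end

end Pool.Agent.W767.HL
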