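import Pool.Agent.W767.HL.Decay

/-!
# Vanishing of the Laurent series at points where the harmonic measure of the zero set is large
-/

namespace Pool.Agent.W767.HL

noncomputable section

open MeasureTheory AddCircle Complex Set Filter Topology

lemma tail_bound {c : ℤ → ℂ} {C ρ : ℝ} (hC : 0 < C) (hρ : 0 < ρ) (hρ1 : ρ < 1)
    (hc : ∀ n : ℕ, ‖c (-(n : ℤ))‖ ≤ C * ρ ^ n) {K N : ℕ} (hKN : K ≤ N) {z : ℂ} (hz : ‖z‖ = 1) :
    ‖ev (tr c (-(K : ℤ)) N) z‖ ≤ ‖ev (tr c (-(N : ℤ)) N) z‖ + C * ρ ^ K / (1 - ρ) := by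
  have h1 : ev (tr c (-(N : ℤ)) N) z
      = ev (tr c (-(N : ℤ)) (-(K : ℤ) - 1)) z + ev (tr c (-(K : ℤ)) N) z := by
    rw [ev_tr, ev_tr, ev_tr, ← Finset.sum_union]
    · congr 1
      ext n
      simp only [Finset.mem_union, Finset.mem_Icc]
      omega
    · rw [Finset.disjoint_left]
      intro n hn hn'
      rw [Finset.mem_Icc] at hn hn'
      omega
  have h2 : ‖ev (tr c (-(N : ℤ)) (-(K : ℤ) - 1)) z‖ ≤ C * ρ ^ K / (1 - ρ) := by
    rw [ev_tr]
    calc ‖∑ n ∈ Finset.Icc (-(N : ℤ)) (-(K : ℤ) - 1), c n * z ^ n‖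
        ≤ ∑ n ∈ Finset.Icc (-(N : ℤ)) (-(K : ℤ) - 1), ‖c n‖ := by
          refine (norm_sum_le _ _).trans (le_of_eq (Finset.sum_congr rfl fun n _ => ?_))
          rw [norm_mul, norm_zpow, hz, one_zpow, mul_one]
      _ ≤ ∑ n ∈ (Finset.range N).image (fun j : ℕ => -((K + 1 + j : ℕ) : ℤ)), ‖c n‖ := by
          refine Finset.sum_le_sum_of_subset_of_nonneg ?_ fun _ _ _ => norm_nonneg _
          intro n hn
          rw [Finset.mem_Icc] at hn
          rw [Finset.mem_image]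
          refine ⟨(-n).toNat - (K + 1), ?_, ?_⟩
          · rw [Finset.mem_range]
            omega
          · omega
      _ = ∑ j ∈ Finset.range N, ‖c (-((K + 1 + j : ℕ) : ℤ))‖ := by
          rw [Finset.sum_image]
          intro a _ b _ hab
          simp only at hab
          omega
      _ ≤ ∑ j ∈ Finset.range N, C * ρ ^ (K + 1 + j) := Finset.sum_le_sum fun j _ => hc _
      _ = C * ρ ^ (K + 1) * ∑ j ∈ Finset.range N, ρ ^ j := by
          rw [Finset.mul_sum]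
          refine Finset.sum_congr rfl fun j _ => ?_
          rw [pow_add, mul_assoc]
      _ ≤ C * ρ ^ K * (1 - ρ)⁻¹ := by
          have h3 : ∑ j ∈ Finset.range N, ρ ^ j ≤ (1 - ρ)⁻¹ := by
            rw [← tsum_geometric_of_lt_one hρ.le hρ1]
            exact (summable_geometric_of_lt_one hρ.le hρ1).sum_le_tsum _ fun _ _ => by positivity
          have h4 : ρ ^ (K + 1) ≤ ρ ^ K := pow_le_pow_of_le_one hρ.le hρ1.le (Nat.le_succ K)
          refine mul_le_mul (mul_le_mul_of_nonneg_left h4 hC.le) h3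
            (Finset.sum_nonneg fun _ _ => by positivity) (by positivity)
      _ = C * ρ ^ K / (1 - ρ) := by rw [div_eq_mul_inv]
  have h3 : ev (tr c (-(K : ℤ)) N) z
      = ev (tr c (-(N : ℤ)) N) z - ev (tr c (-(N : ℤ)) (-(K : ℤ) - 1)) z := by
    rw [h1, add_sub_cancel_left]
  rw [h3]
  exact (norm_sub_le _ _).trans (by linarith)

lemma ineqB {c : ℤ → ℂ} {C ρ : ℝ} (hC : 0 < C) (hρ : 0 < ρ) (hρ1 : ρ < 1)
    (hc : ∀ n : ℕ, ‖c (-(n : ℤ))‖ ≤ C * ρ ^ n) {K N : ℕ} (hKN : K ≤ N) {w : ℂ} (hw : ‖w‖ < 1)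
    (hw0 : w ≠ 0) :
    ‖w‖ ^ (2 * K) * ‖ev (tr c (-(K : ℤ)) N) w‖ ^ 2
      ≤ 2 * Real.exp (La w ((C * ρ ^ K / (1 - ρ)) ^ 2) (fun θ => ev (tr c (-(N : ℤ)) N) (ze θ))) := by
  set σ := C * ρ ^ K / (1 - ρ) with hσ
  have hσ0 : 0 < σ := by
    have : 0 < 1 - ρ := by linarith
    positivity
  set f := sh (K : ℤ) (tr c (-(K : ℤ)) N) with hf
  have hneg : ∀ n : ℤ, n < 0 → f n = 0 := by
    intro n hn
    rw [hf, sh_apply, tr_apply, if_neg]
    omega
  have hev : ∀ z : ℂ, z ≠ 0 → ev f z = z ^ K * ev (tr c (-(K : ℤ)) N) z := by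
    intro z hz
    rw [hf, ev_sh _ _ hz, zpow_natCast]
  have hcG := continuous_ev_ze (tr c (-(N : ℤ)) N)
  have hcv : Continuous fun θ => σ ^ 2 + ‖ev (tr c (-(N : ℤ)) N) (ze θ)‖ ^ 2 :=
    continuous_const.add (hcG.norm.pow 2)
  have hj := jensen (differentiable_ev hneg)
    (v := fun θ => 2 * (σ ^ 2 + ‖ev (tr c (-(N : ℤ)) N) (ze θ)‖ ^ 2))
    (continuous_const.mul hcv) (fun θ => by positivity) (fun θ => by
      rw [hev _ (ze_ne θ), norm_mul, norm_pow, norm_ze, one_pow, one_mul]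
      have h1 := tail_bound hC hρ hρ1 hc hKN (norm_ze θ)
      rw [← hσ] at h1
      have h2 := pow_le_pow_left₀ (norm_nonneg _) h1 2
      refine h2.trans ?_
      nlinarith [sq_nonneg (‖ev (tr c (-(N : ℤ)) N) (ze θ)‖ - σ)]) hw
  rw [hev w hw0, norm_mul, norm_pow, mul_pow, ← pow_mul, mul_comm K 2] at hj
  refine hj.trans (le_of_eq ?_)
  have i1 : Integrable (fun θ => P w θ * Real.log 2) mu :=
    integrable_of_cont ((continuous_P hw).mul continuous_const)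
  have i2 : Integrable (fun θ => P w θ
      * Real.log (σ ^ 2 + ‖ev (tr c (-(N : ℤ)) N) (ze θ)‖ ^ 2)) mu :=
    integrable_P_log hw (by positivity) (ev_tr_integrable _ _ _)
  have h3 : ∀ θ, P w θ * Real.log (2 * (σ ^ 2 + ‖ev (tr c (-(N : ℤ)) N) (ze θ)‖ ^ 2))
      = P w θ * Real.log 2
        + P w θ * Real.log (σ ^ 2 + ‖ev (tr c (-(N : ℤ)) N) (ze θ)‖ ^ 2) := by
    intro θ
    rw [Real.log_mul two_ne_zero (by positivity), mul_add]
  simp only [h3]
  rw [integral_add i1 i2, integral_mul_const, integral_P hw, one_mul, Real.exp_add,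
    Real.exp_log two_pos]
  rfl

lemma coeff_bound (g : Lp ℂ 2 mu) (n : ℤ) : ‖fourierCoeff g n‖ ≤ ∫ θ, ‖g θ‖ ∂mu := by
  unfold fourierCoeff
  refine (norm_integral_le_integral_norm _).trans (le_of_eq ?_)
  refine integral_congr_ae (Filter.Eventually.of_forall fun θ => ?_)
  simp only [smul_eq_mul, norm_mul, fourier_eq, norm_zpow, norm_ze, one_zpow, one_mul]

/-- Domination of the Laurent series on a closed annulus. -/
lemma laurent_bound {c : ℤ → ℂ} {A C ρ r₁ r₂ : ℝ} (hA : ∀ n, ‖c n‖ ≤ A) (hC : 0 < C)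
    (hρ : 0 < ρ) (hc : ∀ n : ℕ, ‖c (-(n : ℤ))‖ ≤ C * ρ ^ n) (h1 : ρ < r₁)
    (h3 : r₂ < 1) :
    ∃ u : ℤ → ℝ, Summable u ∧ ∀ (n : ℤ) (z : ℂ), r₁ ≤ ‖z‖ → ‖z‖ ≤ r₂ → ‖c n * z ^ n‖ ≤ u n := by
  have hr₁ : 0 < r₁ := hρ.trans h1
  have hA0 : 0 ≤ A := (norm_nonneg _).trans (hA 0)
  by_cases h2 : r₁ ≤ r₂
  swap
  · exact ⟨fun _ => 0, summable_zero, fun n z hz1 hz2 => absurd (hz1.trans hz2) h2⟩
  have hr₂ : 0 < r₂ := hr₁.trans_le h2
  have hs1 : Summable fun k : ℕ => A * r₂ ^ k + C * (ρ / r₁) ^ k :=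
    ((summable_geometric_of_lt_one hr₂.le h3).mul_left A).add
      ((summable_geometric_of_lt_one (by positivity) ((div_lt_one hr₁).mpr h1)).mul_left C)
  refine ⟨fun n => A * r₂ ^ n.natAbs + C * (ρ / r₁) ^ n.natAbs, ?_, ?_⟩
  · refine Summable.of_nat_of_neg ?_ ?_
    · simpa using hs1
    · simpa using hs1
  · intro n z hz1 hz2
    have hz0 : 0 < ‖z‖ := hr₁.trans_le hz1
    rw [norm_mul, norm_zpow]
    beta_reduce
    rcases le_or_gt 0 n with hn | hn
    · lift n to ℕ using hn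
      rw [zpow_natCast, Int.natAbs_natCast]
      have h4 : ‖c n‖ * ‖z‖ ^ n ≤ A * r₂ ^ n :=
        mul_le_mul (hA _) (pow_le_pow_left₀ hz0.le hz2 n) (by positivity) hA0
      have h5 : 0 ≤ C * (ρ / r₁) ^ n := by positivity
      linarith
    · obtain ⟨k, rfl⟩ : ∃ k : ℕ, n = -(k : ℤ) := ⟨(-n).toNat, by omega⟩
      rw [zpow_neg, zpow_natCast, Int.natAbs_neg, Int.natAbs_natCast]
      have h4 : ‖c (-(k : ℤ))‖ * (‖z‖ ^ k)⁻¹ ≤ C * ρ ^ k * (r₁ ^ k)⁻¹ := by
        refine mul_le_mul (hc k) ?_ (by positivity) (by positivity)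
        exact inv_anti₀ (by positivity) (pow_le_pow_left₀ hr₁.le hz1 k)
      have h5 : 0 ≤ A * r₂ ^ k := by positivity
      have h6 : C * ρ ^ k * (r₁ ^ k)⁻¹ = C * (ρ / r₁) ^ k := by
        rw [div_pow]
        ring
      linarith

/-- The Laurent series vanishes at points where the harmonic measure of `E` is large. -/
lemma laurent_zero (g : Lp ℂ 2 mu) {C ρ : ℝ} (hC : 0 < C) (hρ : 0 < ρ) (hρ1 : ρ < 1)
    (hc : ∀ n : ℕ, ‖fourierCoeff g (-(n : ℤ))‖ ≤ C * ρ ^ n) {E : Set Ci} (hE : MeasurableSet E)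
    (hgE : ∀ θ ∈ E, g θ = 0) {w : ℂ} (hw : ‖w‖ < 1) (hw0 : w ≠ 0) (hwρ : ρ < ‖w‖)
    (hwρ3 : 3 * Real.log ρ < 4 * Real.log ‖w‖) (hδ : ∫ θ in Eᶜ, P w θ ∂mu ≤ 1 / 4) :
    HasSum (fun n : ℤ => fourierCoeff g n * w ^ n) 0 := by
  have hwn : 0 < ‖w‖ := norm_pos_iff.mpr hw0
  have hgi : Integrable (g : Ci → ℂ) mu := (Lp.memLp g).integrable (by norm_num)
  have hρ2 : 0 < 1 - ρ := by linarith
  obtain ⟨u, hu, hub⟩ := laurent_bound (r₁ := ‖w‖) (r₂ := ‖w‖) (coeff_bound g) hC hρ hc hwρ hw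
  have hsum : Summable fun n : ℤ => fourierCoeff g n * w ^ n :=
    hu.of_norm_bounded fun n => hub n w le_rfl le_rfl
  obtain ⟨S, hS⟩ := hsum
  set σ : ℕ → ℝ := fun K => C * ρ ^ K / (1 - ρ) with hσ
  have hσ0 : ∀ K, 0 < σ K := fun K => by simp only [hσ]; positivity
  -- choice of the truncation
  have hN : ∀ K : ℕ, ∃ N : ℕ, K ≤ N ∧
      La w (σ K ^ 2) (fun θ => ev (tr (fourierCoeff g) (-(N : ℤ)) N) (ze θ))
        ≤ La w (σ K ^ 2) g + 1 := by
    intro K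
    have hσK := hσ0 K
    have h1 := La_tendsto hw (a := σ K ^ 2) (by positivity) hgi
      (fun N => ev_tr_integrable _ _ _) (trunc_tendsto g)
    have h2 := h1.eventually_le_const (lt_add_one _)
    obtain ⟨N, h3, h4⟩ := (h2.and (eventually_ge_atTop K)).exists
    exact ⟨N, h4, h3⟩
  choose N hNK hNL using hN
  have hlim : Tendsto (fun K : ℕ => ev (tr (fourierCoeff g) (-(K : ℤ)) (N K)) w) atTop (𝓝 S) := by
    have hb : Tendsto (fun K : ℕ => ((N K : ℕ) : ℤ)) atTop atTop :=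
      tendsto_natCast_atTop_atTop.comp (tendsto_atTop_mono hNK tendsto_id)
    have ha : Tendsto (fun K : ℕ => -(K : ℤ)) atTop atBot :=
      tendsto_neg_atTop_atBot.comp tendsto_natCast_atTop_atTop
    have h1 := hS.comp (tendsto_Icc ha hb)
    refine h1.congr fun K => ?_
    rw [ev_tr]
    rfl
  set D := 2 * ∫ θ, P w θ * ‖g θ‖ ∂mu with hD
  set A0 := 3 / 2 * Real.log (C / (1 - ρ)) + D + 1 with hA0
  set κ := 3 / 2 * Real.log ρ - 2 * Real.log ‖w‖ with hκ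
  have hκ0 : κ < 0 := by rw [hκ]; linarith
  have hlogρ : Real.log ρ < 0 := Real.log_neg hρ hρ1
  have hσsmall : ∀ᶠ K in atTop, σ K ≤ 1 := by
    have h1 : Tendsto σ atTop (𝓝 (C * 0 / (1 - ρ))) :=
      ((tendsto_pow_atTop_nhds_zero_of_lt_one hρ.le hρ1).const_mul C).div_const _
    rw [mul_zero, zero_div] at h1
    exact h1.eventually_le_const zero_lt_one
  have hPE : 3 / 4 ≤ ∫ θ in E, P w θ ∂mu := by
    have := integral_add_compl hE (integrable_of_cont (continuous_P hw))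
    rw [integral_P hw] at this
    linarith
  have hbound : ∀ᶠ K : ℕ in atTop, ‖ev (tr (fourierCoeff g) (-(K : ℤ)) (N K)) w‖ ^ 2
      ≤ 2 * Real.exp A0 * Real.exp κ ^ K := by
    filter_upwards [hσsmall] with K hK
    have hσK := hσ0 K
    have h1 := ineqB hC hρ hρ1 hc (hNK K) hw hw0
    have h2 := La_le hw (a := σ K ^ 2) (by positivity) (pow_le_one₀ hσK.le hK) hgi hE (σ := 0)
      (fun θ hθ => by rw [hgE θ hθ, norm_zero])
    rw [zero_pow two_ne_zero, add_zero, ← hD] at h2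
    have hlogσ : Real.log (σ K ^ 2) ≤ 0 := Real.log_nonpos (by positivity) (pow_le_one₀ hσK.le hK)
    have h3 : (∫ θ in E, P w θ ∂mu) * Real.log (σ K ^ 2) ≤ 3 / 4 * Real.log (σ K ^ 2) :=
      mul_le_mul_of_nonpos_right hPE hlogσ
    have h4 : Real.log (σ K ^ 2) = 2 * (Real.log (C / (1 - ρ)) + K * Real.log ρ) := by
      have h5 : σ K = C / (1 - ρ) * ρ ^ K := by
        simp only [hσ]
        ring
      rw [h5, Real.log_pow, Real.log_mul (by positivity) (by positivity), Real.log_pow]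
      push_cast
      ring
    have h5 : La w (σ K ^ 2) (fun θ => ev (tr (fourierCoeff g) (-(N K : ℤ)) (N K)) (ze θ))
        ≤ A0 + K * (3 / 2 * Real.log ρ) := by
      have h6 := hNL K
      have h7 : 3 / 4 * Real.log (σ K ^ 2)
          = 3 / 2 * Real.log (C / (1 - ρ)) + K * (3 / 2 * Real.log ρ) := by
        rw [h4]
        ring
      rw [hA0]
      linarith
    have h6 : ‖w‖ ^ (2 * K) * ‖ev (tr (fourierCoeff g) (-(K : ℤ)) (N K)) w‖ ^ 2
        ≤ 2 * Real.exp (A0 + K * (3 / 2 * Real.log ρ)) :=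
      h1.trans (mul_le_mul_of_nonneg_left (Real.exp_le_exp.mpr h5) two_pos.le)
    have h7 : ‖w‖ ^ (2 * K) = Real.exp (K * (2 * Real.log ‖w‖)) := by
      rw [Real.exp_nat_mul, pow_mul]
      congr 1
      rw [two_mul, Real.exp_add, Real.exp_log hwn, sq]
    rw [h7] at h6
    have h8 : Real.exp (A0 + K * (3 / 2 * Real.log ρ))
        = Real.exp (K * (2 * Real.log ‖w‖)) * (Real.exp A0 * Real.exp κ ^ K) := by
      rw [← Real.exp_nat_mul, ← Real.exp_add, ← Real.exp_add]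
      congr 1
      rw [hκ]
      ring
    rw [h8] at h6
    have h9 : 0 < Real.exp (K * (2 * Real.log ‖w‖)) := Real.exp_pos _
    refine le_of_mul_le_mul_left (h6.trans (le_of_eq ?_)) h9
    ring
  have hzero : Tendsto (fun K : ℕ => ‖ev (tr (fourierCoeff g) (-(K : ℤ)) (N K)) w‖ ^ 2) atTop
      (𝓝 0) := by
    have h1 : Tendsto (fun K : ℕ => 2 * Real.exp A0 * Real.exp κ ^ K) atTop
        (𝓝 (2 * Real.exp A0 * 0)) :=
      (tendsto_pow_atTop_nhds_zero_of_lt_one (Real.exp_pos _).le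
        (Real.exp_lt_one_iff.mpr hκ0)).const_mul _
    rw [mul_zero] at h1
    exact squeeze_zero' (Filter.Eventually.of_forall fun _ => by positivity) hbound h1
  have h1 : ‖S‖ ^ 2 = 0 := tendsto_nhds_unique (hlim.norm.pow 2) hzero
  have h2 : S = 0 := by simpa using h1
  rwa [h2] at hS

end

end Pool.Agent.W767.HL
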