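import Pool.Agent.W767.HL.Uniq1

/-!
# The uniqueness theorem when the negative coefficients decay exponentially
-/

namespace Pool.Agent.W767.HL

noncomputable section

open MeasureTheory AddCircle Complex Set Filter Topology

/-- A summable trigonometric series which vanishes identically has zero coefficients. -/
lemma coeff_zero {d : ℤ → ℂ} (hd : Summable fun n => ‖d n‖)
    (h0 : ∀ θ : Ci, HasSum (fun n => d n * ze θ ^ n) 0) (k : ℤ) : d k = 0 := by
  have hs : Summable fun n : ℤ => d n • (fourier n : C(Ci, ℂ)) := by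
    refine Summable.of_norm ?_
    refine hd.congr fun n => ?_
    rw [norm_smul, fourier_norm, mul_one]
  obtain ⟨F, hF⟩ := hs
  have hF0 : F = 0 := by
    ext θ
    have h1 := ContinuousMap.hasSum_apply hF θ
    have h2 : HasSum (fun n : ℤ => (d n • (fourier n : C(Ci, ℂ))) θ) 0 := by
      refine (h0 θ).congr_fun ?_ |> fun h => h
      intro n
      rw [ContinuousMap.smul_apply, smul_eq_mul, fourier_eq]
    exact h1.unique h2
  rw [hF0] at hF
  have h1 := hF.mapL (ContinuousMap.toLp (E := ℂ) 2 mu ℂ)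
  have h2 := h1.mapL (innerSL ℂ (fourierLp 2 k : Lp ℂ 2 mu))
  rw [map_zero, map_zero] at h2
  have h3 : ∀ n : ℤ, (innerSL ℂ (fourierLp 2 k : Lp ℂ 2 mu))
      ((ContinuousMap.toLp (E := ℂ) 2 mu ℂ) (d n • (fourier n : C(Ci, ℂ))))
      = if n = k then d n else 0 := by
    intro n
    rw [map_smul, map_smul, innerSL_apply_apply, smul_eq_mul]
    have := orthonormal_iff_ite.mp (orthonormal_fourier (T := 1)) k n
    rw [fourierLp] at this
    unfold fourierLp
    rw [this]
    by_cases h : k = n
    · rw [if_pos h, if_pos h.symm, mul_one]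
    · rw [if_neg h, if_neg (Ne.symm h), mul_zero]
  simp only [h3] at h2
  have h4 : HasSum (fun n : ℤ => if n = k then d n else 0) (d k) := by
    have := hasSum_ite_eq k (d k)
    refine this.congr_fun ?_ |> fun h => h
    intro n
    by_cases h : n = k
    · rw [if_pos h, if_pos h, h]
    · rw [if_neg h, if_neg h]
  exact (h4.unique h2)

theorem uniq (g : Lp ℂ 2 mu) {C ρ : ℝ} (hC : 0 < C) (hρ : 0 < ρ) (hρ1 : ρ < 1)
    (hc : ∀ n : ℕ, ‖fourierCoeff g (-(n : ℤ))‖ ≤ C * ρ ^ n) {E : Set Ci} (hE : MeasurableSet E)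
    (hpos : 0 < mu.real E) (hgE : ∀ θ ∈ E, g θ = 0) : g = 0 := by
  have hlogρ : Real.log ρ < 0 := Real.log_neg hρ hρ1
  set r₀ := Real.exp (3 / 4 * Real.log ρ) with hr₀
  have hr₀1 : r₀ < 1 := by
    rw [hr₀, Real.exp_lt_one_iff]
    linarith
  have hρr₀ : ρ < r₀ := by
    conv_lhs => rw [← Real.exp_log hρ]
    rw [hr₀, Real.exp_lt_exp]
    linarith
  obtain ⟨w₀, hw₀r, hw₀, hw₀0, hδ⟩ := exists_point hE hpos (δ := 1 / 8) (by norm_num) hr₀1
  set r₁ := (r₀ + ‖w₀‖) / 2 with hr₁
  set r₂ := (1 + ‖w₀‖) / 2 with hr₂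
  have hr₀0 : 0 < r₀ := Real.exp_pos _
  have hr₁0 : 0 < r₁ := by rw [hr₁]; linarith
  have hr₁w : r₁ < ‖w₀‖ := by rw [hr₁]; linarith
  have hwr₂ : ‖w₀‖ < r₂ := by rw [hr₂]; linarith
  have hr₂1 : r₂ < 1 := by rw [hr₂]; linarith
  have hρr₁ : ρ < r₁ := by rw [hr₁]; linarith
  have hwn : 0 < ‖w₀‖ := norm_pos_iff.mpr hw₀0
  obtain ⟨u, hu, hub⟩ := laurent_bound (r₁ := r₁) (r₂ := r₂) (coeff_bound g) hC hρ hc hρr₁ hr₂1
  set U : Set ℂ := {t | Real.log r₁ < t.re ∧ t.re < Real.log r₂} with hU
  have hUo : IsOpen U :=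
    (isOpen_lt continuous_const Complex.continuous_re).inter
      (isOpen_lt Complex.continuous_re continuous_const)
  have hUc : Convex ℝ U := by
    refine Convex.inter ?_ ?_
    · exact (convex_Ioi (Real.log r₁)).is_linear_preimage Complex.reLm.isLinear
    · exact (convex_Iio (Real.log r₂)).is_linear_preimage Complex.reLm.isLinear
  have hUn : ∀ t ∈ U, r₁ ≤ ‖Complex.exp t‖ ∧ ‖Complex.exp t‖ ≤ r₂ := by
    intro t ht
    rw [Complex.norm_exp]
    constructor
    · rw [← Real.log_le_iff_le_exp hr₁0]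
      exact ht.1.le
    · rw [← Real.le_log_iff_exp_le (by linarith)]
      exact ht.2.le
  have hUm : ∀ w : ℂ, ‖w‖ = ‖w₀‖ → Complex.log w ∈ U := by
    intro w hw
    constructor
    · rw [Complex.log_re, hw]
      exact Real.log_lt_log hr₁0 hr₁w
    · rw [Complex.log_re, hw]
      exact Real.log_lt_log hwn hwr₂
  set H : ℂ → ℂ := fun t => ∑' n : ℤ, fourierCoeff g n * Complex.exp t ^ n with hH
  have hHd : DifferentiableOn ℂ H U := by
    refine differentiableOn_tsum_of_summable_norm hu (fun n => ?_) hUo fun n t ht =>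
      hub n _ (hUn t ht).1 (hUn t ht).2
    have h1 : (fun t : ℂ => fourierCoeff g n * Complex.exp t ^ n)
        = fun t => fourierCoeff g n * Complex.exp (n * t) := by
      ext t
      rw [Complex.exp_int_mul]
    rw [h1]
    exact (Differentiable.const_mul (Complex.differentiable_exp.comp
      (differentiable_id.const_mul _)) _).differentiableOn
  -- continuity of the harmonic measure
  have hcont : ContinuousAt (fun w => ∫ θ in Eᶜ, P w θ ∂mu) w₀ := by
    refine continuousAt_of_dominated (bound := fun _ => 2 / (1 - r₂)) ?_ ?_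
      (integrable_const _) ?_
    · filter_upwards [continuous_norm.continuousAt.eventually_lt_const hwr₂] with w hw
      exact (continuous_P (hw.trans hr₂1)).aestronglyMeasurable
    · filter_upwards [continuous_norm.continuousAt.eventually_lt_const hwr₂] with w hw
      refine Filter.Eventually.of_forall fun θ => ?_
      rw [Real.norm_of_nonneg (P_pos (hw.trans hr₂1) θ).le]
      refine (P_le (hw.trans hr₂1) θ).trans ?_
      refine div_le_div_of_nonneg_left two_pos.le (by linarith) (by linarith)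
    · refine Filter.Eventually.of_forall fun θ => ?_
      unfold P
      have h1 : ‖ze θ - w₀‖ ^ 2 ≠ 0 := by
        have := dist_pos w₀ θ
        have : 0 < ‖ze θ - w₀‖ := by linarith
        positivity
      exact ContinuousAt.div (by fun_prop) (by fun_prop) h1
  have hnear : ∀ᶠ w in 𝓝 w₀, HasSum (fun n : ℤ => fourierCoeff g n * w ^ n) 0 := by
    filter_upwards [continuous_norm.continuousAt.eventually_lt_const hw₀,
      continuous_norm.continuousAt.eventually_const_lt hw₀r,
      hcont.eventually_lt_const (show ∫ θ in Eᶜ, P w₀ θ ∂mu < 1 / 4 by linarith)] with w h1 h2 h3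
    have hw0 : 0 < ‖w‖ := hr₀0.trans h2
    refine laurent_zero g hC hρ hρ1 hc hE hgE h1 (norm_pos_iff.mp hw0) (hρr₀.trans h2) ?_ h3.le
    have h4 := Real.log_lt_log hr₀0 h2
    rw [hr₀, Real.log_exp] at h4
    linarith
  have hH0 : EqOn H 0 U := by
    refine (hHd.analyticOnNhd hUo).eqOn_zero_of_preconnected_of_eventuallyEq_zero
      hUc.isPreconnected (hUm w₀ rfl) ?_
    have h1 : Tendsto Complex.exp (𝓝 (Complex.log w₀)) (𝓝 w₀) := by
      have := Complex.continuous_exp.continuousAt (x := Complex.log w₀)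
      rwa [ContinuousAt, Complex.exp_log hw₀0] at this
    filter_upwards [h1.eventually hnear] with t ht
    exact ht.tsum_eq
  -- the coefficients vanish
  have hcz : ∀ n : ℤ, fourierCoeff g n = 0 := by
    intro k
    have h1 := coeff_zero (d := fun n => fourierCoeff g n * (‖w₀‖ : ℂ) ^ n) ?_ ?_ k
    · have h2 : (‖w₀‖ : ℂ) ^ k ≠ 0 := zpow_ne_zero _ (by exact_mod_cast hwn.ne')
      exact (mul_eq_zero.mp h1).resolve_right h2
    · refine Summable.of_nonneg_of_le (fun _ => norm_nonneg _) (fun n => ?_) hu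
      refine hub n _ ?_ ?_
      · rw [Complex.norm_real, norm_norm]
        exact hr₁w.le
      · rw [Complex.norm_real, norm_norm]
        exact hwr₂.le
    · intro θ
      have hnorm : ‖(‖w₀‖ : ℂ) * ze θ‖ = ‖w₀‖ := by
        rw [norm_mul, norm_ze, Complex.norm_real, norm_norm, mul_one]
      have hne : (‖w₀‖ : ℂ) * ze θ ≠ 0 := norm_pos_iff.mp (by rw [hnorm]; exact hwn)
      have h2 := hH0 (hUm _ hnorm)
      simp only [hH, Complex.exp_log hne, Pi.zero_apply] at h2
      have hs : Summable fun n : ℤ => fourierCoeff g n * ((‖w₀‖ : ℂ) * ze θ) ^ n :=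
        hu.of_norm_bounded fun n => hub n _ (by rw [hnorm]; exact hr₁w.le)
          (by rw [hnorm]; exact hwr₂.le)
      have h3 := hs.hasSum
      rw [h2] at h3
      refine h3.congr_fun ?_ |> fun h => h
      intro n
      rw [mul_zpow, mul_assoc]
  have h1 := hasSum_fourier_series_L2 g
  simp only [hcz, zero_smul] at h1
  exact h1.unique hasSum_zero

end

end Pool.Agent.W767.HL
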